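import Pool.Agent.Y208.PT.Cone
import Mathlib.Algebra.Module.Submodule.Union

/-!
# Cones which meet every linear subspace of codimension two
-/

open MvPolynomial

namespace Y208PT

variable {N : ℕ}

/-- the linear form with coefficients `a` -/
noncomputable def linForm : (Fin N → ℂ) →ₗ[ℂ] MvPolynomial (Fin N) ℂ where
  toFun a := ∑ i, C (a i) * X i
  map_add' a b := by
    rw [← Finset.sum_add_distrib]
    refine Finset.sum_congr rfl fun i _ => ?_
    rw [Pi.add_apply, C_add]
    ring
  map_smul' r a := by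
    rw [RingHom.id_apply, Finset.smul_sum]
    refine Finset.sum_congr rfl fun i _ => ?_
    rw [Pi.smul_apply, smul_eq_mul, C_mul, smul_eq_C_mul]
    ring

theorem eval_linForm (a v : Fin N → ℂ) : eval v (linForm a) = ∑ i, a i * v i := by
  simp [linForm]

theorem linForm_single (i : Fin N) : linForm (Pi.single i 1) = (X i : MvPolynomial (Fin N) ℂ) := by
  show ∑ j, C ((Pi.single i 1 : Fin N → ℂ) j) * X j = X i
  rw [Finset.sum_eq_single i]
  · simp
  · intro j _ hj
    rw [Pi.single_eq_of_ne hj, C_0, zero_mul]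
  · intro h
    exact absurd (Finset.mem_univ i) h

/-- the linear forms which lie in an ideal -/
noncomputable def linPart (J : Ideal (MvPolynomial (Fin N) ℂ)) : Submodule ℂ (Fin N → ℂ) :=
  (J.restrictScalars ℂ).comap linForm

theorem mem_linPart {J : Ideal (MvPolynomial (Fin N) ℂ)} {a : Fin N → ℂ} :
    a ∈ linPart J ↔ linForm a ∈ J := Iff.rfl

theorem linPart_ne_top {J : Ideal (MvPolynomial (Fin N) ℂ)} {v : Fin N → ℂ} (hv : v ≠ 0)
    (hJ : J ≤ lineIdeal v) : linPart J ≠ ⊤ := by
  intro h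
  obtain ⟨i, hi⟩ := Function.ne_iff.1 hv
  have h1 : (Pi.single i 1 : Fin N → ℂ) ∈ linPart J := by rw [h]; trivial
  rw [mem_linPart, linForm_single] at h1
  have h2 := mem_lineIdeal.1 (hJ h1) 1
  rw [one_smul, eval_X] at h2
  exact hi h2

theorem exists_linForm (I : Ideal (MvPolynomial (Fin N) ℂ)) :
    ∃ a : Fin N → ℂ, ∀ P ∈ I.minimalPrimes, linPart P ≠ ⊤ → linForm a ∉ P := by
  have hfin := Ideal.finite_minimalPrimes_of_isNoetherianRing (MvPolynomial (Fin N) ℂ) I
  let ι := {P : Ideal (MvPolynomial (Fin N) ℂ) // P ∈ I.minimalPrimes ∧ linPart P ≠ ⊤}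
  have hι : Finite ι := (hfin.subset (fun P (hP : P ∈ I.minimalPrimes ∧ linPart P ≠ ⊤) => hP.1) :
    Set.Finite {P | P ∈ I.minimalPrimes ∧ linPart P ≠ ⊤})
  obtain ⟨a, ha⟩ := Submodule.exists_forall_notMem_of_forall_ne_top
    (fun P : ι => linPart P.1) (fun P => P.2.2)
  exact ⟨a, fun P hP hP' => ha ⟨P, hP, hP'⟩⟩

/-- a cone which meets every linear subspace of codimension two has a chain of primes -/
theorem chain (I : Ideal (MvPolynomial (Fin N) ℂ))
    (h : ∀ a b : Fin N → ℂ, ∃ v : Fin N → ℂ, v ≠ 0 ∧ ∑ i, a i * v i = 0 ∧ ∑ i, b i * v i = 0 ∧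
      I ≤ lineIdeal v) :
    ∃ v : Fin N → ℂ, v ≠ 0 ∧ ∃ p q : Ideal (MvPolynomial (Fin N) ℂ), p.IsPrime ∧ q.IsPrime ∧
      I ≤ p ∧ p < q ∧ q < lineIdeal v := by
  obtain ⟨a, ha⟩ := exists_linForm I
  obtain ⟨b, hb⟩ := exists_linForm (I ⊔ Ideal.span {linForm a})
  obtain ⟨v, hv, hav, hbv, hI⟩ := h a b
  have hmem : ∀ c : Fin N → ℂ, ∑ i, c i * v i = 0 → linForm c ∈ lineIdeal v := by
    intro c hc
    rw [mem_lineIdeal]
    intro t
    rw [eval_linForm]
    have : ∑ i, c i * (t • v) i = t * ∑ i, c i * v i := by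
      rw [Finset.mul_sum]
      refine Finset.sum_congr rfl fun i _ => ?_
      rw [Pi.smul_apply, smul_eq_mul]
      ring
    rw [this, hc, mul_zero]
  obtain ⟨q, hq, hqv⟩ := Ideal.exists_minimalPrimes_le (I := I ⊔ Ideal.span {linForm a})
    (J := lineIdeal v) (sup_le hI (by
      rw [Ideal.span_singleton_le_iff_mem]
      exact hmem a hav))
  have hqp : q.IsPrime := hq.1.1
  obtain ⟨p, hp, hpq⟩ := Ideal.exists_minimalPrimes_le (I := I) (J := q)
    (le_sup_left.trans hq.1.2)
  have hpp : p.IsPrime := hp.1.1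
  refine ⟨v, hv, p, q, hpp, hqp, hp.1.2, lt_of_le_of_ne hpq ?_, lt_of_le_of_ne hqv ?_⟩
  · intro he
    apply ha p hp (linPart_ne_top hv (hpq.trans hqv))
    rw [he]
    exact hq.1.2 (Ideal.mem_sup_right (Ideal.mem_span_singleton_self _))
  · intro he
    apply hb q hq (linPart_ne_top hv hqv)
    rw [he]
    exact hmem b hbv

/-- the line through a nonzero point is determined by its ideal -/
theorem lineIdeal_eq_of_le {s v : Fin N → ℂ} (hv : v ≠ 0) (h : lineIdeal s ≤ lineIdeal v) :
    lineIdeal s = lineIdeal v := by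
  have hdep : ¬ LinearIndependent ℂ ![v, s] := by
    intro hli
    obtain ⟨i, hi⟩ := Function.ne_iff.1 (hli.ne_zero 1 : ![v, s] 1 ≠ 0)
    simp only [Matrix.cons_val_one, Matrix.cons_val_fin_one, Pi.zero_apply] at hi
    have h1 : ∀ j, (C (s i) * X j - C (s j) * X i : MvPolynomial (Fin N) ℂ) ∈ lineIdeal v := by
      intro j
      apply h
      rw [mem_lineIdeal]
      intro t
      simp
      ring
    have h2 : ∀ j, s i * v j = s j * v i := by
      intro j
      have := mem_lineIdeal.1 (h1 j) 1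
      simp only [one_smul, map_sub, map_mul, eval_C, eval_X] at this
      exact sub_eq_zero.1 this
    rw [LinearIndependent.pair_iff] at hli
    have h3 := hli (s i) (-(v i)) (by
      funext j
      simp only [Pi.add_apply, Pi.smul_apply, smul_eq_mul, Pi.zero_apply]
      rw [h2 j]
      ring)
    exact hi h3.1
  rw [LinearIndependent.pair_iff' hv] at hdep
  push Not at hdep
  obtain ⟨c, hc⟩ := hdep
  apply le_antisymm h
  intro p hp
  rw [mem_lineIdeal] at hp ⊢
  intro t
  rw [← hc, smul_smul]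
  exact hp _

/-- infinitely many lines in the zero set of one more equation -/
theorem fibre_inf {v : Fin N → ℂ} (hv : v ≠ 0) {p q : Ideal (MvPolynomial (Fin N) ℂ)}
    [hp : p.IsPrime] [hq : q.IsPrime] (hpq : p < q) (hqv : q < lineIdeal v)
    {δ h : MvPolynomial (Fin N) ℂ} (hδ : eval v δ ≠ 0) (hh : ∃ d, h.IsHomogeneous d)
    (hz : eval v h = 0) :
    ∃ y : ℕ → Fin N → ℂ, (∀ i j, i ≠ j → LinearIndependent ℂ ![y i, y j]) ∧
      ∀ k, (∀ f ∈ p, eval (y k) f = 0) ∧ eval (y k) δ ≠ 0 ∧ eval (y k) h = 0 := by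
  classical
  have hhv : h ∈ lineIdeal v := by
    rw [mem_lineIdeal]
    intro t
    obtain ⟨d, hd⟩ := hh
    rw [eval_smul_hom hd, hz, mul_zero]
  obtain ⟨r, hr, hrv⟩ := Ideal.exists_minimalPrimes_le (I := p ⊔ Ideal.span {h})
    (J := lineIdeal v) (sup_le (hpq.trans hqv).le (by
      rw [Ideal.span_singleton_le_iff_mem]
      exact hhv))
  have hrp : r.IsPrime := hr.1.1
  have hrv' : r < lineIdeal v := by
    refine lt_of_le_of_ne hrv fun he => ?_
    rw [he] at hr
    exact no_chain hpq hqv hr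
  have hδr : δ ∉ r := by
    intro h1
    have h2 := mem_lineIdeal.1 (hrv h1) 1
    rw [one_smul] at h2
    exact hδ h2
  obtain ⟨y, hy1, hy2⟩ := exists_seq_of_forall_finset_exists
    (fun y : Fin N → ℂ => y ≠ 0 ∧ (∀ f ∈ r, eval y f = 0) ∧ eval y δ ≠ 0)
    (fun x y => LinearIndependent ℂ ![x, y]) (by
      intro S hS
      by_contra hcon
      push Not at hcon
      -- all zeros of `r` with `δ ≠ 0` lie on finitely many lines
      have h1 : ∀ s ∈ insert v S, s ≠ 0 := by
        intro s hs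
        rcases Finset.mem_insert.1 hs with rfl | hs
        · exact hv
        · exact (hS s hs).1
      have h2 : ∀ s ∈ insert v S, ∃ f ∈ lineIdeal s, f ∉ r := by
        intro s hs
        by_contra hcon2
        push Not at hcon2
        have h3 : lineIdeal s ≤ r := hcon2
        have h4 := lineIdeal_eq_of_le hv (h3.trans hrv)
        rw [h4] at h3
        exact hrv'.not_ge h3
      choose! f hf1 hf2 using h2
      have h3 : δ * ∏ s ∈ insert v S, f s ∈ r := by
        rw [← IsPrime.vanishingIdeal_zeroLocus (K := ℂ) r]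
        intro y hy
        have hy' : ∀ g ∈ r, eval y g = 0 := by
          intro g hg
          have := hy g hg
          rwa [aeval_eq_eval] at this
        rw [aeval_eq_eval, map_mul]
        by_cases hd : eval y δ = 0
        · rw [hd, zero_mul]
        · have h5 : ∃ s ∈ insert v S, ∃ c : ℂ, c • s = y := by
            by_cases hy0 : y = 0
            · exact ⟨v, Finset.mem_insert_self _ _, 0, by rw [hy0, zero_smul]⟩
            · obtain ⟨s, hs, hsy⟩ := hcon y ⟨hy0, hy', hd⟩
              have hs' : s ∈ insert v S := Finset.mem_insert_of_mem hs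
              rw [LinearIndependent.pair_iff' (h1 s hs')] at hsy
              push Not at hsy
              exact ⟨s, hs', hsy⟩
          obtain ⟨s, hs, c, hc⟩ := h5
          rw [map_prod, Finset.prod_eq_zero hs, mul_zero]
          rw [← hc]
          exact mem_lineIdeal.1 (hf1 s hs) c
      rcases hrp.mem_or_mem h3 with h4 | h4
      · exact hδr h4
      · obtain ⟨s, hs, h5⟩ := (hrp.prod_mem_iff).1 h4
        exact hf2 s hs h5)
  refine ⟨y, fun i j hij => ?_, fun k => ⟨fun f hf => ?_, (hy1 k).2.2, ?_⟩⟩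
  · rcases lt_or_gt_of_ne hij with h1 | h1
    · exact hy2 i j h1
    · exact LinearIndependent.pair_symm_iff.1 (hy2 j i h1)
  · exact (hy1 k).2.1 f (hr.1.2 (Ideal.mem_sup_left hf))
  · exact (hy1 k).2.1 h (hr.1.2 (Ideal.mem_sup_right (Ideal.mem_span_singleton_self h)))

end Y208PT
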