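import Pool.Agent.H960R2.VB.TaskA

/-!
# A cone with infinitely many lines meets every hypersurface cone
-/

open MvPolynomial

namespace Y208PT

/-- In a noetherian ring there is no chain of primes `p < q < m` with `m` minimal over `p + (x)`. -/
theorem no_chain {R : Type*} [CommRing R] [IsNoetherianRing R] {p q m : Ideal R} [p.IsPrime]
    [q.IsPrime] [m.IsPrime] (hpq : p < q) (hqm : q < m) {x : R}
    (hm : m ∈ (p ⊔ Ideal.span {x}).minimalPrimes) : False := by
  have h1 := Ideal.map_height_le_one_of_mem_minimalPrimes hm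
  have hsurj : Function.Surjective (Ideal.Quotient.mk p) := Ideal.Quotient.mk_surjective
  have hq : (q.map (Ideal.Quotient.mk p)).IsPrime :=
    Ideal.map_isPrime_of_surjective hsurj (by rw [Ideal.mk_ker]; exact hpq.le)
  have hm' : (m.map (Ideal.Quotient.mk p)).IsPrime :=
    Ideal.map_isPrime_of_surjective hsurj (by rw [Ideal.mk_ker]; exact (hpq.trans hqm).le)
  have hlt1 : (⊥ : Ideal (R ⧸ p)) < q.map (Ideal.Quotient.mk p) := by
    rw [bot_lt_iff_ne_bot]
    intro h
    rw [Ideal.map_eq_bot_iff_le_ker, Ideal.mk_ker] at h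
    exact hpq.not_ge h
  have hlt2 : q.map (Ideal.Quotient.mk p) < m.map (Ideal.Quotient.mk p) := by
    refine lt_of_le_of_ne (Ideal.map_mono hqm.le) ?_
    intro h
    have h2 := congrArg (Ideal.comap (Ideal.Quotient.mk p)) h
    rw [Ideal.comap_map_of_surjective _ hsurj, Ideal.comap_map_of_surjective _ hsurj,
      ← RingHom.ker_eq_comap_bot, Ideal.mk_ker, sup_eq_left.mpr hpq.le,
      sup_eq_left.mpr (hpq.trans hqm).le] at h2
    exact hqm.ne h2
  have hb : (⊥ : Ideal (R ⧸ p)).IsPrime := Ideal.isPrime_bot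
  have h2 := Ideal.height_add_one_le_of_lt_of_isPrime hlt1
  have h3 := Ideal.height_add_one_le_of_lt_of_isPrime hlt2
  have h4 : (1 : ℕ∞) + 1 ≤ 1 := by
    calc (1 : ℕ∞) + 1 ≤ ((⊥ : Ideal (R ⧸ p)).height + 1) + 1 := by
          gcongr
          exact le_add_self
      _ ≤ (q.map (Ideal.Quotient.mk p)).height + 1 := by gcongr
      _ ≤ (m.map (Ideal.Quotient.mk p)).height := h3
      _ ≤ 1 := h1
  exact absurd h4 (by decide)

variable {N : ℕ}

/-- restriction of a polynomial to the line through the origin and `v` -/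
noncomputable def resLine (v : Fin N → ℂ) : MvPolynomial (Fin N) ℂ →ₐ[ℂ] Polynomial ℂ :=
  aeval (fun i => Polynomial.C (v i) * Polynomial.X)

theorem eval_resLine (v : Fin N → ℂ) (t : ℂ) (p : MvPolynomial (Fin N) ℂ) :
    (resLine v p).eval t = eval (t • v) p := by
  have h : (Polynomial.evalRingHom t).comp (resLine v).toRingHom = eval (t • v) := by
    apply MvPolynomial.ringHom_ext
    · intro r
      simp [resLine]
    · intro i
      simp [resLine]
      ring
  have := RingHom.congr_fun h p
  simpa using this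

theorem eval_smul_hom {k : ℕ} {h : MvPolynomial (Fin N) ℂ} (hh : h.IsHomogeneous k)
    (r : ℂ) (z : Fin N → ℂ) : eval (r • z) h = r ^ k * eval z h := by
  rw [eval_eq', eval_eq', Finset.mul_sum]
  apply Finset.sum_congr rfl
  intro d hd
  have hdeg : d.degree = k := by
    by_contra hne
    exact (mem_support_iff.1 hd) (hh.coeff_eq_zero hne)
  rw [Finsupp.degree_eq_sum] at hdeg
  have h1 : ∏ i, (r • z) i ^ d i = r ^ k * ∏ i, z i ^ d i := by
    rw [← hdeg, ← Finset.prod_pow_eq_pow_sum, ← Finset.prod_mul_distrib]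
    apply Finset.prod_congr rfl
    intro i _
    rw [Pi.smul_apply, smul_eq_mul, mul_pow]
  rw [h1]
  ring

/-- the ideal of the line through the origin and `v` -/
noncomputable def lineIdeal (v : Fin N → ℂ) : Ideal (MvPolynomial (Fin N) ℂ) :=
  RingHom.ker (resLine v).toRingHom

instance (v : Fin N → ℂ) : (lineIdeal v).IsPrime := RingHom.ker_isPrime _

theorem mem_lineIdeal {v : Fin N → ℂ} {p : MvPolynomial (Fin N) ℂ} :
    p ∈ lineIdeal v ↔ ∀ t : ℂ, eval (t • v) p = 0 := by
  rw [lineIdeal, RingHom.mem_ker]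
  constructor
  · intro h t
    have h' : resLine v p = 0 := h
    rw [← eval_resLine, h']
    simp
  · intro h
    show resLine v p = 0
    apply Polynomial.funext
    intro t
    rw [eval_resLine, h t]
    simp

theorem lineIdeal_le (v : Fin N → ℂ) : lineIdeal v ≤ vanishingIdeal ℂ ({0} : Set (Fin N → ℂ)) := by
  intro p hp
  rw [mem_vanishingIdeal_singleton_iff, aeval_eq_eval]
  have := mem_lineIdeal.1 hp 0
  rwa [zero_smul] at this

theorem lineIdeal_lt {v : Fin N → ℂ} (hv : v ≠ 0) :
    lineIdeal v < vanishingIdeal ℂ ({0} : Set (Fin N → ℂ)) := by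
  refine lt_of_le_of_ne (lineIdeal_le v) ?_
  intro h
  obtain ⟨i, hi⟩ := Function.ne_iff.1 hv
  have h1 : (X i : MvPolynomial (Fin N) ℂ) ∈ lineIdeal v := by
    rw [h, mem_vanishingIdeal_singleton_iff, aeval_eq_eval]
    simp
  have h2 := mem_lineIdeal.1 h1 1
  rw [one_smul, eval_X] at h2
  exact hi h2

/-- the lines are determined by their ideals -/
theorem lineIdeal_ne {v w : Fin N → ℂ} (h : LinearIndependent ℂ ![v, w]) :
    lineIdeal v ≠ lineIdeal w := by
  intro he
  obtain ⟨i, hi⟩ := Function.ne_iff.1 (h.ne_zero 0 : ![v, w] 0 ≠ 0)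
  simp only [Matrix.cons_val_zero, Pi.zero_apply] at hi
  -- the forms `v i * X j - v j * X i`
  have h1 : ∀ j, (C (v i) * X j - C (v j) * X i : MvPolynomial (Fin N) ℂ) ∈ lineIdeal w := by
    intro j
    rw [← he, mem_lineIdeal]
    intro t
    simp
    ring
  have h2 : ∀ j, v i * w j = v j * w i := by
    intro j
    have := mem_lineIdeal.1 (h1 j) 1
    simp only [one_smul, map_sub, map_mul, eval_C, eval_X] at this
    exact sub_eq_zero.1 this
  rw [LinearIndependent.pair_iff] at h
  have h3 := h (-(w i)) (v i) (by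
    funext j
    simp only [Pi.add_apply, Pi.smul_apply, smul_eq_mul, Pi.zero_apply]
    rw [h2 j]
    ring)
  exact hi h3.2

/-- **The cone lemma.**  If the common zeros of `S₁` contain infinitely many lines through the
origin, and if the common zeros of `S₂` are, near the point `u`, given by one homogeneous equation
which vanishes at `u`, then `S₁` and `S₂` have a common zero different from the origin. -/
theorem cone_inf (S₁ S₂ : Set (MvPolynomial (Fin N) ℂ))
    (v : ℕ → Fin N → ℂ) (hv : ∀ i j, i ≠ j → LinearIndependent ℂ ![v i, v j])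
    (hS₁ : ∀ i (t : ℂ), ∀ p ∈ S₁, eval (t • v i) p = 0)
    (u : Fin N → ℂ) (δ h : MvPolynomial (Fin N) ℂ) (hδ : eval u δ ≠ 0)
    (hh : ∃ d, h.IsHomogeneous d) (hz : eval u h = 0)
    (hl : ∀ x, eval x δ ≠ 0 → eval x h = 0 → ∀ p ∈ S₂, eval x p = 0) :
    ∃ x : Fin N → ℂ, x ≠ 0 ∧ (∀ p ∈ S₁, eval x p = 0) ∧ ∀ p ∈ S₂, eval x p = 0 := by
  classical
  have hv0 : ∀ i, v i ≠ 0 := by
    intro i
    exact (hv i (i + 1) (by omega)).ne_zero 0
  by_cases hh0 : h = 0
  · refine ⟨v 0, hv0 0, fun p hp => ?_, fun p hp => ?_⟩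
    · have := hS₁ 0 1 p hp
      rwa [one_smul] at this
    · have h1 : δ * p = 0 := by
        apply MvPolynomial.funext
        intro x
        rw [map_mul, map_zero]
        by_cases hx : eval x δ = 0
        · rw [hx, zero_mul]
        · rw [hl x hx (by rw [hh0, map_zero]) p hp, mul_zero]
      rcases mul_eq_zero.1 h1 with h2 | h2
      · rw [h2, map_zero] at hδ
        exact absurd rfl hδ
      · rw [h2, map_zero]
  -- a prime factor of `h` which vanishes on the line through `u`
  have hhu : h ∈ lineIdeal u := by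
    rw [mem_lineIdeal]
    intro t
    obtain ⟨d, hd⟩ := hh
    rw [eval_smul_hom hd, hz, mul_zero]
  obtain ⟨f, hf, hfh⟩ := UniqueFactorizationMonoid.exists_prime_factors h hh0
  have hfu : f.prod ∈ lineIdeal u := by
    obtain ⟨c, hc⟩ := hfh.symm
    rw [← hc]
    exact Ideal.mul_mem_right _ _ hhu
  obtain ⟨G, hGf, hGu⟩ := (Ideal.IsPrime.multiset_prod_mem_iff_exists_mem inferInstance f).1 hfu
  have hGp : Prime G := hf G hGf
  have hGh : G ∣ h := (Multiset.dvd_prod hGf).trans hfh.dvd
  have hGI : (Ideal.span {G}).IsPrime := (Ideal.span_singleton_prime hGp.ne_zero).2 hGp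
  have hG2 : ∀ x, eval x G = 0 → ∀ p ∈ S₂, eval x p = 0 := by
    intro x hx p hp
    have h1 : δ * p ∈ Ideal.span {G} := by
      rw [← IsPrime.vanishingIdeal_zeroLocus (K := ℂ) (Ideal.span {G})]
      intro y hy
      have hy' : eval y G = 0 := by
        have := hy G (Ideal.mem_span_singleton_self G)
        rwa [aeval_eq_eval] at this
      rw [aeval_eq_eval, map_mul]
      by_cases hd : eval y δ = 0
      · rw [hd, zero_mul]
      · rw [hl y hd (by
          obtain ⟨c, hc⟩ := hGh
          rw [hc, map_mul, hy', zero_mul]) p hp, mul_zero]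
    rcases hGI.mem_or_mem h1 with h2 | h2
    · exfalso
      obtain ⟨c, hc⟩ := Ideal.mem_span_singleton.1 h2
      have h3 := mem_lineIdeal.1 hGu 1
      rw [one_smul] at h3
      apply hδ
      rw [hc, map_mul, h3, zero_mul]
    · obtain ⟨c, hc⟩ := Ideal.mem_span_singleton.1 h2
      rw [hc, map_mul, hx, zero_mul]
  -- a component of the first cone which contains a line properly
  obtain ⟨i, P, hP, hPi⟩ : ∃ i, ∃ P ∈ (Ideal.span S₁).minimalPrimes, P < lineIdeal (v i) := by
    by_contra hcon
    push Not at hcon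
    have hmem : ∀ i, lineIdeal (v i) ∈ (Ideal.span S₁).minimalPrimes := by
      intro i
      have hle : Ideal.span S₁ ≤ lineIdeal (v i) := by
        rw [Ideal.span_le]
        intro p hp
        exact mem_lineIdeal.2 fun t => hS₁ i t p hp
      obtain ⟨P, hP, hPi⟩ := Ideal.exists_minimalPrimes_le hle
      rcases hPi.lt_or_eq with h1 | h1
      · exact absurd h1 (hcon i P hP)
      · rw [← h1]; exact hP
    have hinj : Function.Injective (fun i => lineIdeal (v i)) := by
      intro i j hij
      by_contra hne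
      exact lineIdeal_ne (hv i j hne) hij
    have hfin := Ideal.finite_minimalPrimes_of_isNoetherianRing (MvPolynomial (Fin N) ℂ)
      (Ideal.span S₁)
    exact Set.infinite_range_of_injective hinj (hfin.subset (by
      rintro _ ⟨i, rfl⟩
      exact hmem i))
  by_contra hcon
  have hcon' : ∀ x : Fin N → ℂ, (∀ p ∈ S₁, eval x p = 0) → (∀ p ∈ S₂, eval x p = 0) → x = 0 := by
    intro x ha hb
    by_contra hx
    exact hcon ⟨x, hx, ha, hb⟩
  have hPp : P.IsPrime := hP.1.1
  refine no_chain hPi (lineIdeal_lt (hv0 i)) (x := G) ⟨⟨inferInstance, ?_⟩, ?_⟩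
  · refine sup_le (hPi.le.trans (lineIdeal_le _)) ?_
    rw [Ideal.span_singleton_le_iff_mem]
    exact lineIdeal_le _ hGu
  · rintro r ⟨hr, hle⟩ -
    rw [← IsPrime.vanishingIdeal_zeroLocus (K := ℂ) r]
    apply vanishingIdeal_anti_mono
    intro x hx
    rw [Set.mem_singleton_iff]
    apply hcon'
    · intro p hp
      have := hx p (hle (Ideal.mem_sup_left (hP.1.2 (Ideal.subset_span hp))))
      rwa [aeval_eq_eval] at this
    · apply hG2
      have := hx G (hle (Ideal.mem_sup_right (Ideal.mem_span_singleton_self G)))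
      rwa [aeval_eq_eval] at this

end Y208PT
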