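import Pool.Agent.Y208.PT.Cone
import Pool.Agent.H960R2.VB.TaskD

/-!
# The linear algebra of the pointwise theorem
-/

open MvPolynomial H960VB

namespace Y208PT

variable {n w : ℕ} {Y I : Type} [Fintype Y] [Fintype I]

/-- the common zeros of the minors of `td_Stack` are, near `v₁`, given by one equation -/
theorem stack_local (dY : Y → ℤ) (dI : I → ℤ)
    (M : Matrix Y I (MvPolynomial (Fin n) ℂ)) (hM : ∀ y i, HomZ (M y i) (dY y - dI i))
    (hker : ∀ v : Fin n → ℂ, v ≠ 0 →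
      Module.finrank ℂ (LinearMap.ker (Matrix.mulVecLin (evm M v))) = w)
    (μ lam : Fin w → I → ℂ) (hμ : ∀ b i, μ b i ≠ 0 → dI i = (b : ℕ))
    (hJ : ∀ v : Fin n → ℂ, v ≠ 0 → ∀ g : I → ℂ, (evm M v).mulVec g = 0 →
      (∀ b, ∑ i, μ b i * g i = 0) → (∀ b, ∑ i, lam b i * g i = 0) → g = 0)
    (ν : Fin w → I → ℂ) (hν : ∀ b i, ν b i ≠ 0 → dI i = (b : ℕ))
    (v₁ : Fin n → ℂ) (hv₁ : v₁ ≠ 0) :
    ∃ δ h : MvPolynomial (Fin n) ℂ, eval v₁ δ ≠ 0 ∧ (∃ d, h.IsHomogeneous d) ∧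
      (∀ v, eval v δ ≠ 0 → eval v h = 0 →
        ∃ g : I → ℂ, g ≠ 0 ∧ (evm M v).mulVec g = 0 ∧ ∀ b, ∑ i, ν b i * g i = 0) ∧
      ∀ v, (∃ g : I → ℂ, g ≠ 0 ∧ (evm M v).mulVec g = 0 ∧ ∀ b, ∑ i, ν b i * g i = 0) →
        eval v h = 0 := by
  classical
  have hQinj : ∀ v : Fin n → ℂ, v ≠ 0 → ∀ g, (evm M v).mulVec g = 0 →
      (td_QQ μ lam).mulVec g = 0 → g = 0 := by
    intro v hv g h1 h2
    exact hJ v hv g h1 (fun b => congrFun h2 (Sum.inl b)) (fun b => congrFun h2 (Sum.inr b))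
  obtain ⟨R', W', e', hR', hW', hdet'⟩ := td_local_rows (evm M v₁) (td_QQ μ lam) w (hker v₁ hv₁)
    (hQinj v₁ hv₁)
  obtain ⟨i₁, hi₁⟩ : ∃ i, v₁ i ≠ 0 := Function.ne_iff.mp hv₁
  let TT : Matrix I I (MvPolynomial (Fin n) ℂ) :=
    Matrix.of fun i => Sum.elim (fun r : R' => M r) (fun z : W' => fun j => C (td_QQ μ lam z j)) (e' i)
  have hTT : ∀ (v : Fin n → ℂ),
      eval v TT.det = (Matrix.of fun i => Sum.elim (fun r : R' => evm M v r)
        (fun z : W' => td_QQ μ lam z) (e' i)).det := by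
    intro v
    rw [RingHom.map_det]
    congr 1
    ext i j
    simp only [TT, RingHom.mapMatrix_apply, Matrix.map_apply, Matrix.of_apply]
    rcases e' i with r | z
    · rfl
    · simp
  have hcardW' : Fintype.card W' = w := by rw [Fintype.card_coe, hW']
  let σ : W' ≃ Fin w := Fintype.equivFinOfCardEq hcardW'
  let f₂ : I → Y ⊕ Fin w := fun i => Sum.map (fun r : R' => r.1) σ (e' i)
  refine ⟨TT.det * X i₁, ((td_Stack M ν).submatrix f₂ id).det, ?_, ?_, ?_, ?_⟩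
  · rw [map_mul, eval_X, hTT]
    exact mul_ne_zero hdet' hi₁
  · exact (HomZ.tdDet ((td_Stack M ν).submatrix f₂ id)
      (fun c => Sum.elim dY (fun b : Fin w => ((b : ℕ) : ℤ)) (f₂ c)) dI
      (fun a c => td_Stack_hom dY dI M hM ν hν _ _)).tdIsHom
  · intro v hδ h0
    rw [map_mul, eval_X, hTT] at hδ
    have hdv := left_ne_zero_of_mul hδ
    have hvi := right_ne_zero_of_mul hδ
    have hv : v ≠ 0 := fun h => hvi (by rw [h]; rfl)
    rw [td_eval_minor, ← Matrix.exists_mulVec_eq_zero_iff] at h0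
    obtain ⟨g, hg0, hg⟩ := h0
    have hg' : ∀ i, (evm (td_Stack M ν) v).mulVec g (f₂ i) = 0 := fun i => congrFun hg i
    rw [td_evm_Stack_mulVec] at hg'
    have hMg : (evm M v).mulVec g = 0 := by
      refine td_ker_rows (evm M v) (td_QQ μ lam) w (hker v hv) R' W' e' hR' hdv g ?_
      intro r hr
      have := hg' (e'.symm (Sum.inl ⟨r, hr⟩))
      simp only [f₂, Equiv.apply_symm_apply, Sum.map_inl, Sum.elim_inl] at this
      exact this
    refine ⟨g, hg0, hMg, ?_⟩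
    intro b
    have := hg' (e'.symm (Sum.inr (σ.symm b)))
    simp only [f₂, Equiv.apply_symm_apply, Sum.map_inr, Sum.elim_inr] at this
    exact this
  · rintro v ⟨g, hg0, hMg, hμg⟩
    rw [td_eval_minor]
    refine td_minor_zero _ g hg0 ?_ _
    rw [td_evm_Stack_mulVec]
    funext r
    rcases r with y | b
    · exact congrFun hMg y
    · exact hμg b

/-- from injectivity to a global family -/
theorem core_final (hn : 2 ≤ n) (dY : Y → ℤ) (dI : I → ℤ)
    (M : Matrix Y I (MvPolynomial (Fin n) ℂ)) (hM : ∀ y i, HomZ (M y i) (dY y - dI i))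
    (hker : ∀ v : Fin n → ℂ, v ≠ 0 →
      Module.finrank ℂ (LinearMap.ker (Matrix.mulVecLin (evm M v))) = w)
    (μ : Fin w → I → ℂ) (hμ : ∀ b i, μ b i ≠ 0 → dI i = (b : ℕ))
    (hPhi : ∀ v : Fin n → ℂ, v ≠ 0 → ∀ g : I → ℂ, (evm M v).mulVec g = 0 →
      (∀ b, ∑ i, μ b i * g i = 0) → g = 0) :
    ∃ G : I → MvPolynomial (Fin n) ℂ, (∀ i, HomZ (G i) (dI i - (w - 1 : ℤ))) ∧
      M.mulVec G = 0 ∧
      ∀ b : Fin w, ∑ i, C (μ b i) * G i = if (b : ℕ) + 1 = w then 1 else 0 := by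
  classical
  have hinj : ∀ v : Fin n → ℂ, v ≠ 0 → ∀ g : I → ℂ, (evm (td_Stack M μ) v).mulVec g = 0 → g = 0 := by
    intro v hv g hg
    rw [td_evm_Stack_mulVec] at hg
    exact hPhi v hv g (funext fun y => congrFun hg (Sum.inl y)) (fun b => congrFun hg (Sum.inr b))
  let r : Y ⊕ Fin w → MvPolynomial (Fin n) ℂ :=
    Sum.elim 0 (fun b => if (b : ℕ) + 1 = w then 1 else 0)
  have hsol : ∀ v : Fin n → ℂ, v ≠ 0 → ∃ g : I → ℂ, (evm (td_Stack M μ) v).mulVec g = evv r v := by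
    intro v hv
    let Φ : LinearMap.ker (Matrix.mulVecLin (evm M v)) →ₗ[ℂ] (Fin w → ℂ) :=
      (Matrix.mulVecLin (Matrix.of μ)).comp (Submodule.subtype _)
    have hΦi : Function.Injective Φ := by
      rw [← LinearMap.ker_eq_bot, LinearMap.ker_eq_bot']
      rintro ⟨g, hg⟩ hg2
      have : g = 0 := hPhi v hv g hg (fun b => congrFun hg2 b)
      exact Subtype.ext this
    have hΦs : Function.Surjective Φ := by
      rw [← LinearMap.injective_iff_surjective_of_finrank_eq_finrank]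
      · exact hΦi
      · rw [hker v hv]; simp
    obtain ⟨⟨g, hg⟩, hg2⟩ := hΦs (fun b => if (b : ℕ) + 1 = w then 1 else 0)
    refine ⟨g, ?_⟩
    rw [td_evm_Stack_mulVec]
    funext c
    rcases c with y | b
    · have : (evm M v).mulVec g = 0 := hg
      simp [evv, r, this]
    · have := congrFun hg2 b
      simp only [evv, r, Sum.elim_inr]
      rw [apply_ite (eval v), map_one, map_zero]
      exact this
  obtain ⟨G, hG⟩ := hartogs (by omega) (td_Stack M μ) r hinj hsol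
  have hGh := hartogs_hom (by omega) (td_Stack M μ) r (Sum.elim dY (fun b : Fin w => ((b : ℕ) : ℤ))) dI
    ((w : ℤ) - 1) (td_Stack_hom dY dI M hM μ hμ) (by
      intro c
      rcases c with y | b
      · exact Or.inl rfl
      · change HomZ (if (b : ℕ) + 1 = w then 1 else 0) (((b : ℕ) : ℤ) - ((w : ℤ) - 1))
        split_ifs with h
        · rw [show ((b : ℕ) : ℤ) - ((w : ℤ) - 1) = 0 by omega]
          simpa using HomZ.tdConst (σ := Fin n) 1
        · exact Or.inl rfl) hinj G hG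
  refine ⟨G, hGh, ?_, ?_⟩
  · funext y
    have := congrFun hG (Sum.inl y)
    exact this
  · intro b
    have := congrFun hG (Sum.inr b)
    exact this

/-- The core of the pointwise theorem, with infinitely many lines of maximal gap. -/
theorem core_inf (hn : 2 ≤ n) (dY : Y → ℤ) (dI : I → ℤ)
    (M : Matrix Y I (MvPolynomial (Fin n) ℂ)) (hM : ∀ y i, HomZ (M y i) (dY y - dI i))
    (hker : ∀ v : Fin n → ℂ, v ≠ 0 →
      Module.finrank ℂ (LinearMap.ker (Matrix.mulVecLin (evm M v))) = w)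
    (μ lam : Fin w → I → ℂ) (hμ : ∀ b i, μ b i ≠ 0 → dI i = (b : ℕ))
    (hlam : ∀ b i, lam b i ≠ 0 → dI i = (b : ℕ))
    (hJ : ∀ v : Fin n → ℂ, v ≠ 0 → ∀ g : I → ℂ, (evm M v).mulVec g = 0 →
      (∀ b, ∑ i, μ b i * g i = 0) → (∀ b, ∑ i, lam b i * g i = 0) → g = 0)
    (v₀ : ℕ → Fin n → ℂ) (hv₀ : ∀ i j, i ≠ j → LinearIndependent ℂ ![v₀ i, v₀ j])
    (g₀ : ℕ → I → ℂ) (hg₀ : ∀ k, (evm M (v₀ k)).mulVec (g₀ k) = 0)
    (hg₀μ : ∀ k, ∀ b : Fin w, ∑ i, μ b i * g₀ k i = if (b : ℕ) + 1 = w then 1 else 0)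
    (hg₀lam : ∀ k, ∀ b : Fin w, ∑ i, lam b i * g₀ k i = 0)
    (hdisj : ∀ v : Fin n → ℂ, v ≠ 0 → ∀ g : I → ℂ, (evm M v).mulVec g = 0 →
      (∀ b : Fin w, ∑ i, μ b i * g i = if (b : ℕ) + 1 = w then 1 else 0) →
      (∀ b : Fin w, ∑ i, lam b i * g i = 0) →
      ∀ g' : I → ℂ, (evm M v).mulVec g' = 0 → (∀ b, ∑ i, μ b i * g' i = 0) → g' = 0) :
    ∃ G : I → MvPolynomial (Fin n) ℂ, (∀ i, HomZ (G i) (dI i - (w - 1 : ℤ))) ∧
      M.mulVec G = 0 ∧
      ∀ b : Fin w, ∑ i, C (μ b i) * G i = if (b : ℕ) + 1 = w then 1 else 0 := by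
  classical
  have hQinj : ∀ v : Fin n → ℂ, v ≠ 0 → ∀ g, (evm M v).mulVec g = 0 →
      (td_QQ μ lam).mulVec g = 0 → g = 0 := by
    intro v hv g h1 h2
    exact hJ v hv g h1 (fun b => congrFun h2 (Sum.inl b)) (fun b => congrFun h2 (Sum.inr b))
  refine core_final hn dY dI M hM hker μ hμ ?_
  by_contra hcon
  push Not at hcon
  obtain ⟨v₁, hv₁, g₁, hMg₁, hμg₁, hg₁⟩ := hcon
  obtain ⟨δ, h, hδ, hh, hl, hz⟩ := stack_local dY dI M hM hker μ lam hμ hJ μ hμ v₁ hv₁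
  have hAne : ∀ g : I → ℂ, (Sum.elim g (fun _ => (-1 : ℂ)) : I ⊕ Unit → ℂ) ≠ 0 := by
    intro g h
    have := congrFun h (Sum.inr ())
    simp at this
  have hAz : ∀ (v : Fin n → ℂ) (g : I → ℂ), (evm M v).mulVec g = 0 →
      (∀ z, ∑ i, td_QQ μ lam z i * g i = td_tau w z) →
      (evm (td_Aug M μ lam) v).mulVec (Sum.elim g (fun _ => (-1 : ℂ))) = 0 := by
    intro v g h1 h2
    rw [td_evm_Aug_mulVec]
    funext r
    rcases r with y | z
    · exact congrFun h1 y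
    · simp only [Sum.elim_inr, Sum.elim_inl, h2 z, Pi.zero_apply]
      ring
  obtain ⟨v, hv, hS1, hS2⟩ := cone_inf
    {p | ∃ f : I ⊕ Unit → Y ⊕ (Fin w ⊕ Fin w), p = ((td_Aug M μ lam).submatrix f id).det}
    {p | ∃ f : I → Y ⊕ Fin w, p = ((td_Stack M μ).submatrix f id).det}
    v₀ hv₀ (by
      rintro k t p ⟨f, rfl⟩
      obtain ⟨d, hd⟩ := (HomZ.tdDet ((td_Aug M μ lam).submatrix f id)
          (fun c => Sum.elim dY (td_dZ w) (f c)) (Sum.elim dI (fun _ => (w : ℤ) - 1))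
          (fun a c => td_Aug_hom dY dI M hM μ lam hμ hlam _ _)).tdIsHom
      rw [eval_smul_hom hd, td_eval_minor]
      rw [td_minor_zero _ _ (hAne (g₀ k)) (hAz (v₀ k) (g₀ k) (hg₀ k) ?_) _, mul_zero]
      rintro (b | b)
      · exact hg₀μ k b
      · exact hg₀lam k b) v₁ δ h hδ hh (hz v₁ ⟨g₁, hg₁, hMg₁, hμg₁⟩) (by
      rintro x hx1 hx2 p ⟨f, rfl⟩
      obtain ⟨g, hg0, hMg, hμg⟩ := hl x hx1 hx2
      rw [td_eval_minor]
      refine td_minor_zero _ g hg0 ?_ _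
      rw [td_evm_Stack_mulVec]
      funext r
      rcases r with y | b
      · exact congrFun hMg y
      · exact hμg b)
  -- contradiction
  obtain ⟨u, hu0, hu⟩ := td_maxmin (evm (td_Aug M μ lam) v) (fun f => by
    rw [← td_eval_minor]; exact hS1 _ ⟨f, rfl⟩)
  obtain ⟨g', hg'0, hg'⟩ := td_maxmin (evm (td_Stack M μ) v) (fun f => by
    rw [← td_eval_minor]; exact hS2 _ ⟨f, rfl⟩)
  rw [td_evm_Aug_mulVec] at hu
  rw [td_evm_Stack_mulVec] at hg'
  have ht : u (Sum.inr ()) ≠ 0 := by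
    intro h9
    apply hu0
    have h10 : u ∘ Sum.inl = 0 := by
      apply hQinj v hv
      · funext y
        exact congrFun hu (Sum.inl y)
      · funext z
        have := congrFun hu (Sum.inr z)
        simp only [Sum.elim_inr, h9, mul_zero, add_zero] at this
        exact this
    funext c
    rcases c with i | x
    · exact congrFun h10 i
    · exact h9
  apply hg'0
  refine hdisj v hv (fun i => - (u (Sum.inr ()))⁻¹ * u (Sum.inl i)) ?_ ?_ ?_ g' ?_ ?_
  · have : (fun i => - (u (Sum.inr ()))⁻¹ * u (Sum.inl i)) =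
        (- (u (Sum.inr ()))⁻¹) • (u ∘ Sum.inl) := rfl
    rw [this, Matrix.mulVec_smul]
    have h2 : (evm M v).mulVec (u ∘ Sum.inl) = 0 := by
      funext y
      exact congrFun hu (Sum.inl y)
    rw [h2, smul_zero]
  · intro b
    have := congrFun hu (Sum.inr (Sum.inl b))
    simp only [Sum.elim_inr, Pi.zero_apply] at this
    have h2 : ∑ i, μ b i * u (Sum.inl i) +
        (if (b : ℕ) + 1 = w then 1 else 0) * u (Sum.inr ()) = 0 := this
    have h3 : ∑ i, μ b i * (- (u (Sum.inr ()))⁻¹ * u (Sum.inl i)) =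
        - (u (Sum.inr ()))⁻¹ * ∑ i, μ b i * u (Sum.inl i) := by
      rw [Finset.mul_sum]
      refine Finset.sum_congr rfl fun i _ => ?_
      ring
    rw [h3, eq_neg_of_add_eq_zero_left h2]
    field_simp
  · intro b
    have := congrFun hu (Sum.inr (Sum.inr b))
    simp only [Sum.elim_inr, Pi.zero_apply] at this
    have h2 : ∑ i, lam b i * u (Sum.inl i) + 0 * u (Sum.inr ()) = 0 := this
    have h3 : ∑ i, lam b i * (- (u (Sum.inr ()))⁻¹ * u (Sum.inl i)) =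
        - (u (Sum.inr ()))⁻¹ * ∑ i, lam b i * u (Sum.inl i) := by
      rw [Finset.mul_sum]
      refine Finset.sum_congr rfl fun i _ => ?_
      ring
    rw [zero_mul, add_zero] at h2
    rw [h3, h2, mul_zero]
  · funext y
    exact congrFun hg' (Sum.inl y)
  · intro b
    exact congrFun hg' (Sum.inr b)

end Y208PT
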