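import Pool.Agent.Y208.PT.Lines

/-!
# Sections of low degree force large jumps
-/

open MvPolynomial H960VB H960VB.Bundle2

namespace Y208PT

variable {n : ℕ}

/-- **Gap theorem.**  A section of `E(r)` which does not vanish at `P` forces large jumps on lines
through `P`. -/
theorem gap (E : Bundle2 n) (hE : ¬ E.Splits) (c₁ : ℤ)
    (hc : ∀ A B : Fin (n + 1) → ℂ, LinearIndependent ℂ ![A, B] →
      ∀ a b : ℤ, E.SplitsOn A B a b → a + b = c₁)
    (r : ℤ) (s : Fin E.a → MvPolynomial (Fin (n + 1)) ℂ) (hs : E.IsSection r s)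
    (P : Fin (n + 1) → ℂ) (hP : P ≠ 0) (hsP : evv s P ≠ 0) :
    ∀ m : ℕ, 2 ≤ m → c₁ + 2 * r + 2 ≤ m → ∀ Λ : Submodule ℂ (Fin (n + 1) → ℂ), P ∈ Λ →
      Module.finrank ℂ Λ = m + 1 → ∃ Q ∈ Λ, LinearIndependent ℂ ![P, Q] ∧
        ∃ a b : ℤ, E.SplitsOn P Q a b ∧ (m : ℤ) - 1 - r ≤ a := by
  intro m
  induction m with
  | zero => intro h; omega
  | succ m ih =>
    intro hm hcm Λ hPΛ hΛ
    by_contra hcon
    push Not at hcon
    apply hE
    have hmax : ∀ Q ∈ Λ, LinearIndependent ℂ ![P, Q] → ∀ a b : ℤ, E.SplitsOn P Q a b →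
        a ≤ (m : ℤ) - 1 - r ∧ b ≤ (m : ℤ) - 1 - r := by
      intro Q hQ hPQ a b hs
      have h1 := hcon Q hQ hPQ a b hs
      have h2 := hcon Q hQ hPQ b a (SplitsOn.swap hs)
      push_cast at h1 h2
      exact ⟨by omega, by omega⟩
    rcases eq_or_lt_of_le hcm with hcm' | hcm'
    · -- the classical case
      refine E.main_subspace Λ (by omega) P hPΛ hP fun Q hQ hPQ => ?_
      obtain ⟨a, b, hab⟩ := Pool.Agent.H106R3.VB.splitsOn_exists E hPQ
      refine ⟨a, b, ?_, hab⟩
      obtain ⟨h1, h2⟩ := hmax Q hQ hPQ a b hab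
      have h3 := hc P Q hPQ a b hab
      rw [hΛ]
      push_cast at hcm' ⊢
      have h4 : |a - b| ≤ (m : ℤ) - 1 := by
        rw [abs_le]
        constructor <;> omega
      omega
    · -- an infinite family of lines of maximal type
      obtain ⟨Q, hQ, hQi⟩ := exists_lines Λ hPΛ hP (by omega)
        (fun Q => ∃ a b : ℤ, E.SplitsOn P Q a b ∧ ((m : ℤ) - 1 - r ≤ a)) (by
          intro M hM hPM hMf
          by_cases hm2 : 2 ≤ m
          · obtain ⟨Q, hQ, hPQ, a, b, hab, h1⟩ := ih hm2 (by push_cast at hcm'; omega) M hPM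
              (by omega)
            exact ⟨Q, hQ, hPQ, a, b, hab, h1⟩
          · obtain rfl : m = 1 := by omega
            obtain ⟨Q, hQ, hPQ⟩ := exists_li_of_finrank (M := M) (by omega) hP
            obtain ⟨a, b, hab⟩ := Pool.Agent.H106R3.VB.splitsOn_exists E hPQ
            obtain ⟨h1, h2⟩ := hmax Q (hM hQ) hPQ a b hab
            have h3 := hc P Q hPQ a b hab
            -- one of the numbers is at least `-r` as `s` does not vanish at `P`
            by_cases ha : -r ≤ a
            · refine ⟨Q, hQ, hPQ, a, b, hab, ?_⟩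
              push_cast
              omega
            · refine ⟨Q, hQ, hPQ, b, a, SplitsOn.swap hab, ?_⟩
              by_contra hb
              push_cast at hb
              obtain ⟨g₁, g₂, hg₁, hg₂, hg⟩ := hab
              obtain ⟨hl, hlv⟩ := IsSection.lineSec hs hPQ
              obtain ⟨H₁, H₂, hH₁, hH₂, hH⟩ := hl.decomp hPQ
                (g₁ := g₁) (g₂ := g₂) ⟨hg₁, fun z hz => (hg z hz).1⟩
                ⟨hg₂, fun z hz => (hg z hz).2.1⟩ (fun z hz => (hg z hz).2.2)
              have e1 : H₁ = 0 := HomZ.eq_zero_of_neg hH₁ (by omega)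
              have e2 : H₂ = 0 := HomZ.eq_zero_of_neg hH₂ (by omega)
              apply hsP
              have h5 := hlv ![1, 0]
              have h6 : (![1, 0] : Fin 2 → ℂ) 0 • P + (![1, 0] : Fin 2 → ℂ) 1 • Q = P := by simp
              rw [h6] at h5
              rw [← h5]
              ext i
              simp [evv, hH, e1, e2])
      have hz10 : (![1, 0] : Fin 2 → ℂ) ≠ 0 := by
        intro h
        have := congrFun h 0
        simp at this
      have hex : ∀ k, ∃ g : Fin E.a → MvPolynomial (Fin 2) ℂ,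
          LineSec E P (Q k) ((m : ℤ) - 1 - r) g ∧ evv g ![1, 0] = evv s P := by
        intro k
        obtain ⟨hQΛ, hPQ, a, b, hab, ha⟩ := hQ k
        obtain ⟨h1, h2⟩ := hmax _ hQΛ hPQ a b hab
        have h3 := hc P _ hPQ a b hab
        obtain rfl : a = (m : ℤ) - 1 - r := by omega
        obtain ⟨g₁, g₂, hg₁, hg₂, hg⟩ := hab
        obtain ⟨hl, hlv⟩ := IsSection.lineSec hs hPQ
        have hl₁ : LineSec E P (Q k) ((m : ℤ) - 1 - r) g₁ := ⟨hg₁, fun z hz => (hg z hz).1⟩
        obtain ⟨c, hcc⟩ := hl.dep hPQ hl₁ ⟨hg₂, fun z hz => (hg z hz).2.1⟩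
          (fun z hz => (hg z hz).2.2) (by push_cast at hcm'; omega) ![1, 0]
        refine ⟨fun i => C c * g₁ i, ⟨fun i => ?_, fun z hz => ?_⟩, ?_⟩
        · have h4 := L2.HomZ_mul (σ := Fin 2) (p := C c) (d := 0)
            (Or.inr ⟨0, rfl, isHomogeneous_C _ c⟩) (hl₁.1 i)
          exact L2.HomZ_cast h4 (by ring)
        · have h4 : evv (fun i => C c * g₁ i) z = c • evv g₁ z := by
            ext i
            simp [evv]
          rw [h4]
          exact Submodule.smul_mem _ _ (hl₁.2 z hz)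
        · have h4 : evv (fun i => C c * g₁ i) ![1, 0] = c • evv g₁ ![1, 0] := by
            ext i
            simp [evv]
          rw [h4, ← hcc, hlv]
          simp
      choose g hg1 hg2 using hex
      exact pt_subspace E Λ (by omega) P hPΛ hP ((m : ℤ) - 1 - r) hmax Q (fun k => (hQ k).1) hQi
        g hg1 (evv s P) hsP hg2

/-- **Wedge theorem.**  Two sections of a nonsplit bundle which are independent at some point have
large total degree. -/
theorem wedge_deg (hn : 2 ≤ n) (E : Bundle2 n) (hE : ¬ E.Splits) (c₁ : ℤ)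
    (hc : ∀ A B : Fin (n + 1) → ℂ, LinearIndependent ℂ ![A, B] →
      ∀ a b : ℤ, E.SplitsOn A B a b → a + b = c₁)
    (r t : ℤ) (s u : Fin E.a → MvPolynomial (Fin (n + 1)) ℂ) (hs : E.IsSection r s)
    (hu : E.IsSection t u) (x : Fin (n + 1) → ℂ) (hx : x ≠ 0)
    (hsu : LinearIndependent ℂ ![evv s x, evv u x]) : (n : ℤ) - 1 ≤ c₁ + r + t := by
  have key : ∀ (r t : ℤ) (s u : Fin E.a → MvPolynomial (Fin (n + 1)) ℂ), E.IsSection r s →
      E.IsSection t u → LinearIndependent ℂ ![evv s x, evv u x] → r ≤ t →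
      (n : ℤ) - 1 ≤ c₁ + r + t := by
    intro r t s u hs hu hsu hrt
    by_contra hcon
    obtain ⟨Q, -, hPQ, a, b, hab, ha⟩ := gap E hE c₁ hc r s hs x hx (hsu.ne_zero 0) n hn
      (by omega) ⊤ trivial (by simp)
    have h3 := hc x Q hPQ a b hab
    obtain ⟨g₁, g₂, hg₁, hg₂, hg⟩ := hab
    have hl₁ : LineSec E x Q a g₁ := ⟨hg₁, fun z hz => (hg z hz).1⟩
    have hl₂ : LineSec E x Q b g₂ := ⟨hg₂, fun z hz => (hg z hz).2.1⟩
    obtain ⟨hl, hlv⟩ := IsSection.lineSec hs hPQ
    obtain ⟨hl', hlv'⟩ := IsSection.lineSec hu hPQ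
    obtain ⟨c, hcc⟩ := hl.dep hPQ hl₁ hl₂ (fun z hz => (hg z hz).2.2) (by omega) ![1, 0]
    obtain ⟨c', hcc'⟩ := hl'.dep hPQ hl₁ hl₂ (fun z hz => (hg z hz).2.2) (by omega) ![1, 0]
    rw [hlv] at hcc
    rw [hlv'] at hcc'
    have h6 : (![1, 0] : Fin 2 → ℂ) 0 • x + (![1, 0] : Fin 2 → ℂ) 1 • Q = x := by simp
    rw [h6] at hcc hcc'
    rw [hcc, hcc', LinearIndependent.pair_iff] at hsu
    have h7 := hsu c' (-c) (by module)
    have h8 := hsu 1 0 (by
      have h9 : c = 0 := by simpa using h7.2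
      rw [h9]
      simp)
    exact one_ne_zero h8.1
  rcases le_total r t with h | h
  · exact key r t s u hs hu hsu h
  · have := key t r u s hu hs (by
      rw [LinearIndependent.pair_iff] at hsu ⊢
      intro a b hab
      have := hsu b a (by rw [← hab]; abel)
      exact ⟨this.2, this.1⟩) h
    omega

end Y208PT
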