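import Pool.Agent.Y208.PT.Sub

/-!
# Lines through a point: infinite families, decomposition of sections, first Chern class
-/

open MvPolynomial H960VB H960VB.Bundle2

namespace Y208PT

variable {n : ℕ}

section LinAlg

variable {V : Type*} [AddCommGroup V] [Module ℂ V]

theorem li_swap {P x y : V} (h : LinearIndependent ℂ ![P, x, y]) :
    LinearIndependent ℂ ![P, y, x] := by
  rw [Fintype.linearIndependent_iff] at h ⊢
  intro g hg
  have h1 := h ![g 0, g 2, g 1] (by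
    rw [Fin.sum_univ_three] at hg ⊢
    simp only [Matrix.cons_val_zero, Matrix.cons_val_one, Matrix.cons_val_two,
      Matrix.head_cons, Matrix.tail_cons] at hg ⊢
    rw [← hg]
    abel)
  intro i
  fin_cases i
  · simpa using h1 0
  · simpa using h1 2
  · simpa using h1 1

theorem li_of_notMem {M : Submodule ℂ V} {P x y : V} (hP : P ∈ M) (hy : y ∈ M) (hx : x ∉ M)
    (h : LinearIndependent ℂ ![P, y]) : LinearIndependent ℂ ![P, x, y] := by
  rw [Fintype.linearIndependent_iff]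
  intro g hg
  rw [Fin.sum_univ_three] at hg
  simp only [Matrix.cons_val_zero, Matrix.cons_val_one, Matrix.cons_val_two,
      Matrix.head_cons, Matrix.tail_cons] at hg
  have h1 : g 1 = 0 := by
    by_contra h1
    apply hx
    have h2 : x = (-(g 1)⁻¹ * g 0) • P + (-(g 1)⁻¹ * g 2) • y := by
      have h3 : g 1 • x = -(g 0 • P + g 2 • y) := by
        rw [eq_neg_iff_add_eq_zero, ← hg]
        abel
      have h4 : x = (g 1)⁻¹ • (g 1 • x) := by
        rw [smul_smul, inv_mul_cancel₀ h1, one_smul]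
      rw [h4, h3]
      module
    rw [h2]
    exact M.add_mem (M.smul_mem _ hP) (M.smul_mem _ hy)
  rw [h1, zero_smul, add_zero] at hg
  rw [LinearIndependent.pair_iff] at h
  obtain ⟨h2, h3⟩ := h _ _ hg
  intro i
  fin_cases i
  · exact h2
  · exact h1
  · exact h3

theorem exists_li_of_finrank {M : Submodule ℂ V} [FiniteDimensional ℂ V]
    (hM : 2 ≤ Module.finrank ℂ M) {P : V} (hP : P ≠ 0) :
    ∃ y ∈ M, LinearIndependent ℂ ![P, y] := by
  obtain ⟨y, hy, hy'⟩ : ∃ y ∈ M, y ∉ Submodule.span ℂ {P} := by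
    by_contra hcon
    push Not at hcon
    have h1 : M ≤ Submodule.span ℂ {P} := fun y hy => hcon y hy
    have h2 := Submodule.finrank_mono h1
    rw [finrank_span_singleton hP] at h2
    omega
  refine ⟨y, hy, ?_⟩
  rw [LinearIndependent.pair_iff' hP]
  intro a ha
  exact hy' (Submodule.mem_span_singleton.2 ⟨a, ha⟩)

/-- a hyperplane through `P` which misses finitely many given points -/
theorem exists_avoid [FiniteDimensional ℂ V] (Λ : Submodule ℂ V) {P : V} (hPΛ : P ∈ Λ)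
    (S : Finset V) (hS : S.Nonempty) (hSΛ : ∀ x ∈ S, x ∈ Λ)
    (hSP : ∀ x ∈ S, LinearIndependent ℂ ![P, x]) :
    ∃ M ≤ Λ, P ∈ M ∧ Module.finrank ℂ M + 1 = Module.finrank ℂ Λ ∧ ∀ x ∈ S, x ∉ M := by
  classical
  obtain ⟨φ, hφ⟩ := Module.exists_dual_forall_apply_ne_zero (K := ℂ)
    (fun x : S => (Submodule.span ℂ {P}).mkQ (x : V)) (by
      rintro ⟨x, hx⟩ h0
      rw [Submodule.mkQ_apply, Submodule.Quotient.mk_eq_zero, Submodule.mem_span_singleton] at h0
      obtain ⟨a, ha⟩ := h0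
      have h1 := hSP x hx
      rw [LinearIndependent.pair_iff] at h1
      have h2 := h1 a (-1) (by rw [ha]; simp)
      have h3 := h2.2
      norm_num at h3)
  let ψ : V →ₗ[ℂ] ℂ := φ ∘ₗ (Submodule.span ℂ {P}).mkQ
  have hψP : ψ P = 0 := by
    have : (Submodule.span ℂ {P}).mkQ P = 0 := by
      rw [Submodule.mkQ_apply, Submodule.Quotient.mk_eq_zero]
      exact Submodule.mem_span_singleton_self P
    change φ ((Submodule.span ℂ {P}).mkQ P) = 0
    rw [this, map_zero]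
  have hψS : ∀ x ∈ S, ψ x ≠ 0 := fun x hx => hφ ⟨x, hx⟩
  let ψ' : Λ →ₗ[ℂ] ℂ := ψ.domRestrict Λ
  refine ⟨(LinearMap.ker ψ').map Λ.subtype, ?_, ?_, ?_, ?_⟩
  · rintro _ ⟨x, -, rfl⟩
    exact x.2
  · exact ⟨⟨P, hPΛ⟩, hψP, rfl⟩
  · rw [Submodule.finrank_map_subtype_eq]
    have h1 := LinearMap.finrank_range_add_finrank_ker ψ'
    have h2 : LinearMap.range ψ' = ⊤ := by
      rw [LinearMap.range_eq_top]
      apply LinearMap.surjective
      intro h0
      obtain ⟨x, hx⟩ := hS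
      apply hψS x hx
      have := LinearMap.congr_fun h0 ⟨x, hSΛ x hx⟩
      exact this
    rw [h2, finrank_top, Module.finrank_self] at h1
    omega
  · rintro x hx ⟨y, hy, hyx⟩
    apply hψS x hx
    rw [← hyx]
    exact hy

/-- an infinite family of lines through `P` -/
theorem exists_lines [FiniteDimensional ℂ V] (Λ : Submodule ℂ V) {P : V} (hPΛ : P ∈ Λ)
    (hP : P ≠ 0) (hΛ : 3 ≤ Module.finrank ℂ Λ) (Good : V → Prop)
    (hG : ∀ M ≤ Λ, P ∈ M → Module.finrank ℂ M + 1 = Module.finrank ℂ Λ →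
      ∃ y ∈ M, LinearIndependent ℂ ![P, y] ∧ Good y) :
    ∃ Q : ℕ → V, (∀ k, Q k ∈ Λ ∧ LinearIndependent ℂ ![P, Q k] ∧ Good (Q k)) ∧
      ∀ i j, i ≠ j → LinearIndependent ℂ ![P, Q i, Q j] := by
  classical
  obtain ⟨Q, h1, h2⟩ := exists_seq_of_forall_finset_exists
    (fun y : V => y ∈ Λ ∧ LinearIndependent ℂ ![P, y] ∧ Good y)
    (fun x y => LinearIndependent ℂ ![P, x, y]) (by
      intro S hS
      obtain ⟨x₀, hx₀, hx₀'⟩ := exists_li_of_finrank (M := Λ) (by omega) hP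
      obtain ⟨M, hM, hPM, hMf, hMS⟩ := exists_avoid Λ hPΛ (insert x₀ S)
        ⟨x₀, Finset.mem_insert_self _ _⟩ (by
          intro x hx
          rcases Finset.mem_insert.1 hx with rfl | hx
          · exact hx₀
          · exact (hS x hx).1) (by
          intro x hx
          rcases Finset.mem_insert.1 hx with rfl | hx
          · exact hx₀'
          · exact (hS x hx).2.1)
      obtain ⟨y, hy, hy1, hy2⟩ := hG M hM hPM hMf
      exact ⟨y, ⟨hM hy, hy1, hy2⟩, fun x hx =>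
        li_of_notMem hPM hy (hMS x (Finset.mem_insert_of_mem hx)) hy1⟩)
  refine ⟨Q, h1, fun i j hij => ?_⟩
  rcases lt_or_gt_of_ne hij with h | h
  · exact h2 i j h
  · exact li_swap (h2 j i h)

end LinAlg

theorem line_ne_zero {P Q : Fin (n + 1) → ℂ} (h : LinearIndependent ℂ ![P, Q]) {z : Fin 2 → ℂ}
    (hz : z ≠ 0) : z 0 • P + z 1 • Q ≠ 0 := by
  intro h0
  rw [LinearIndependent.pair_iff] at h
  obtain ⟨h1, h2⟩ := h _ _ h0
  apply hz
  ext i
  fin_cases i
  · exact h1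
  · exact h2

/-- decomposition of a section on a line -/
theorem LineSec.decomp {E : Bundle2 n} {P Q : Fin (n + 1) → ℂ} (hPQ : LinearIndependent ℂ ![P, Q])
    {q : ℤ} {g : Fin E.a → MvPolynomial (Fin 2) ℂ} (hg : LineSec E P Q q g) {a b : ℤ}
    {g₁ g₂ : Fin E.a → MvPolynomial (Fin 2) ℂ} (hg₁ : LineSec E P Q a g₁)
    (hg₂ : LineSec E P Q b g₂)
    (hli : ∀ z : Fin 2 → ℂ, z ≠ 0 → LinearIndependent ℂ ![evv g₁ z, evv g₂ z]) :
    ∃ H₁ H₂ : MvPolynomial (Fin 2) ℂ, HomZ H₁ (a - q) ∧ HomZ H₂ (b - q) ∧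
      ∀ i, g i = H₁ * g₁ i + H₂ * g₂ i := by
  classical
  let S : Matrix (Fin E.a) (Fin 2) (MvPolynomial (Fin 2) ℂ) := fun i b => ![g₁ i, g₂ i] b
  have hSe : ∀ (z : Fin 2 → ℂ) (c : Fin 2 → ℂ), (evm S z).mulVec c =
      c 0 • evv g₁ z + c 1 • evv g₂ z := by
    intro z c
    ext1 i
    simp only [Matrix.mulVec, dotProduct, Fin.sum_univ_two]
    show eval z (g₁ i) * c 0 + eval z (g₂ i) * c 1 = c 0 * eval z (g₁ i) + c 1 * eval z (g₂ i)
    ring
  have hinj : ∀ z : Fin 2 → ℂ, z ≠ 0 → ∀ c : Fin 2 → ℂ, (evm S z).mulVec c = 0 → c = 0 := by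
    intro z hz c hc
    rw [hSe] at hc
    obtain ⟨h0, h1⟩ := LinearIndependent.pair_iff.1 (hli z hz) _ _ hc
    ext b
    fin_cases b
    · exact h0
    · exact h1
  have hsol : ∀ z : Fin 2 → ℂ, z ≠ 0 → ∃ c : Fin 2 → ℂ, (evm S z).mulVec c = evv g z := by
    intro z hz
    have hx := line_ne_zero hPQ hz
    have hrk := E.rank_two _ hx
    have hspan : Submodule.span ℂ (Set.range ![evv g₁ z, evv g₂ z]) =
        E.fib (z 0 • P + z 1 • Q) := by
      apply Submodule.eq_of_le_of_finrank_eq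
      · rw [Submodule.span_le]
        rintro _ ⟨b, rfl⟩
        fin_cases b
        · exact hg₁.2 z hz
        · exact hg₂.2 z hz
      · rw [finrank_span_eq_card (hli z hz)]
        exact hrk.symm
    have hmem : evv g z ∈ Submodule.span ℂ (Set.range ![evv g₁ z, evv g₂ z]) := by
      rw [hspan]
      exact hg.2 z hz
    rw [Submodule.mem_span_range_iff_exists_fun] at hmem
    obtain ⟨c, hc⟩ := hmem
    refine ⟨c, ?_⟩
    rw [hSe, ← hc, Fin.sum_univ_two]
    simp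
  obtain ⟨H, hH⟩ := hartogs (le_refl 2) S g hinj hsol
  have hdeg := hartogs_hom (by norm_num : 1 ≤ 2) S g E.β ![a, b] q
    (fun i b => by
      fin_cases b
      · exact hg₁.1 i
      · exact hg₂.1 i)
    (fun i => hg.1 i) hinj H hH
  refine ⟨H 0, H 1, hdeg 0, hdeg 1, fun i => ?_⟩
  rw [← hH]
  simp only [Matrix.mulVec, dotProduct, Fin.sum_univ_two, S, Matrix.cons_val_zero,
    Matrix.cons_val_one]
  ring

/-- a section of negative degree on the second summand is a multiple of the first generator -/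
theorem LineSec.dep {E : Bundle2 n} {P Q : Fin (n + 1) → ℂ} (hPQ : LinearIndependent ℂ ![P, Q])
    {q : ℤ} {g : Fin E.a → MvPolynomial (Fin 2) ℂ} (hg : LineSec E P Q q g) {a b : ℤ}
    {g₁ g₂ : Fin E.a → MvPolynomial (Fin 2) ℂ} (hg₁ : LineSec E P Q a g₁)
    (hg₂ : LineSec E P Q b g₂)
    (hli : ∀ z : Fin 2 → ℂ, z ≠ 0 → LinearIndependent ℂ ![evv g₁ z, evv g₂ z]) (hb : b < q)
    (z : Fin 2 → ℂ) : ∃ c : ℂ, evv g z = c • evv g₁ z := by
  obtain ⟨H₁, H₂, h1, h2, h3⟩ := hg.decomp hPQ hg₁ hg₂ hli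
  have h4 : H₂ = 0 := HomZ.eq_zero_of_neg h2 (by omega)
  refine ⟨eval z H₁, ?_⟩
  ext i
  simp [evv, h3, h4]

/-- the restriction of a global section to a line -/
theorem IsSection.lineSec {E : Bundle2 n} {r : ℤ} {s : Fin E.a → MvPolynomial (Fin (n + 1)) ℂ}
    (hs : E.IsSection r s) {P Q : Fin (n + 1) → ℂ} (hPQ : LinearIndependent ℂ ![P, Q]) :
    LineSec E P Q (-r) (fun i => lsub (m := 1) (Pool.Agent.H106R3.VB.lineMap P Q) (s i)) ∧
    ∀ z : Fin 2 → ℂ, evv (fun i => lsub (m := 1) (Pool.Agent.H106R3.VB.lineMap P Q) (s i)) z =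
      evv s (z 0 • P + z 1 • Q) := by
  have h : ∀ z : Fin 2 → ℂ,
      evv (fun i => lsub (m := 1) (Pool.Agent.H106R3.VB.lineMap P Q) (s i)) z =
      evv s (z 0 • P + z 1 • Q) := by
    intro z
    ext i
    exact eval_lsub (m := 1) (Pool.Agent.H106R3.VB.lineMap P Q) z (s i)
  refine ⟨⟨fun i => homZ_lsub _ (L2.HomZ_cast (hs.1 i) (by ring)), fun z hz => ?_⟩, h⟩
  rw [h]
  exact hs.2 _ (line_ne_zero hPQ hz)

theorem SplitsOn.swap {E : Bundle2 n} {P Q : Fin (n + 1) → ℂ} {a b : ℤ}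
    (h : E.SplitsOn P Q a b) : E.SplitsOn P Q b a := by
  obtain ⟨g₁, g₂, h1, h2, h3⟩ := h
  refine ⟨g₂, g₁, h2, h1, fun z hz => ⟨(h3 z hz).2.1, (h3 z hz).1, ?_⟩⟩
  have h4 := (h3 z hz).2.2
  rw [LinearIndependent.pair_iff] at h4 ⊢
  intro s t hst
  have := h4 t s (by rw [← hst]; abel)
  exact ⟨this.2, this.1⟩

theorem SplitsOn.shear {E : Bundle2 n} {P Q Q' : Fin (n + 1) → ℂ} {a b : ℤ}
    (h : E.SplitsOn P Q a b) (c : ℂ) (hQ : Q = c • P + Q') : E.SplitsOn P Q' a b := by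
  obtain ⟨g₁, g₂, h1, h2, h3⟩ := h
  have hg₁ : LineSec E P Q a g₁ := ⟨h1, fun z hz => (h3 z hz).1⟩
  have hg₂ : LineSec E P Q b g₂ := ⟨h2, fun z hz => (h3 z hz).2.1⟩
  have h4 := hg₁.shear c hQ
  have h5 := hg₂.shear c hQ
  refine ⟨_, _, h4.1, h5.1, fun z hz => ⟨h4.2 z hz, h5.2 z hz, ?_⟩⟩
  rw [evv_lsub_shear, evv_lsub_shear]
  refine (h3 _ ?_).2.2
  intro h0
  apply hz
  have h1 : z 1 = 0 := by
    have := congrFun h0 1
    simpa using this
  have h2 : z 0 = 0 := by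
    have := congrFun h0 0
    simpa [h1] using this
  ext i
  fin_cases i
  · exact h2
  · exact h1

/-- the first Chern class -/
theorem exists_chern (hn : 1 ≤ n) (E : Bundle2 n) : ∃ c₁ : ℤ, ∀ A B : Fin (n + 1) → ℂ,
    LinearIndependent ℂ ![A, B] → ∀ a b : ℤ, E.SplitsOn A B a b → a + b = c₁ := by
  obtain ⟨c₁, P, hP, hP0, hPw⟩ := plucker (by omega : 2 ≤ n + 1) E.β E.γ E.B E.hom E.rank_two
  refine ⟨c₁, fun A B hAB a b hs => ?_⟩
  have hA : A ≠ 0 := hAB.ne_zero 0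
  obtain ⟨T, hT⟩ := exists_move A hA
  have hTl : T.toLinearMap (Fin.cons 1 0) = A := hT
  -- the direction
  have hB : B = (T.symm B) 0 • A + T.toLinearMap (Fin.cons 0 (Fin.tail (T.symm B))) := by
    have h := param_decomp T.toLinearMap (T.symm B)
    rw [hTl] at h
    rw [← h]
    simp
  have h1 := SplitsOn.shear hs _ hB
  rw [← hTl] at h1
  have h2 := splitsOn_pull E T.toLinearMap T.injective _ _ a b h1
  have hne : ∀ x : Fin (n + 1) → ℂ, x ≠ 0 → T.toLinearMap x ≠ 0 := by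
    intro x hx h0
    exact hx (T.injective (by simpa using h0))
  refine splitsOn_sum (E.pull T.toLinearMap T.injective) c₁ (fun i j => lsub T.toLinearMap (P i j))
    (fun i j => homZ_lsub _ (hP i j)) ?_ ?_ (Fin.tail (T.symm B)) ?_ a b h2
  · intro x hx
    obtain ⟨i, j, hij⟩ := hP0 _ (hne x hx)
    refine ⟨i, j, ?_⟩
    rw [eval_lsub]
    exact hij
  · intro x hx u w hu hw
    rw [evm_pull] at hu hw
    obtain ⟨κ, hκ⟩ := hPw _ (hne x hx) u w hu hw
    refine ⟨κ, fun i j => ?_⟩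
    rw [eval_lsub]
    exact hκ i j
  · intro h0
    rw [h0] at hB
    have h3 : (Fin.cons 0 0 : Fin (n + 1) → ℂ) = 0 := by
      ext i
      refine Fin.cases ?_ (fun i => ?_) i <;> simp
    rw [h3, map_zero, add_zero] at hB
    rw [LinearIndependent.pair_iff] at hAB
    have h4 := hAB ((T.symm B) 0) (-1) (by
      rw [← hB]
      simp)
    have h5 := h4.2
    norm_num at h5

end Y208PT
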