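import Pool.Agent.Y208.PT.Fam
import Pool.Agent.H106R3.VB.Jump

/-!
# The pointwise theorem

If infinitely many lines through a point have the maximal gap (among the lines through the point),
and if their maximal subbundles have the same direction at the point, then the bundle splits.
-/

open MvPolynomial H960VB H960VB.Bundle2

namespace Y208PT

variable {n : ℕ}

/-- The pointwise theorem at the point `[1:0:...:0]`. -/
theorem pt_e0 (hn : 2 ≤ n) (E : Bundle2 n) (q : ℤ)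
    (hmax : ∀ v : Fin n → ℂ, v ≠ 0 → ∀ a b : ℤ,
      E.SplitsOn (Fin.cons 1 0) (Fin.cons 0 v) a b → a ≤ q ∧ b ≤ q)
    (v₀ : ℕ → Fin n → ℂ) (hv₀ : ∀ i j, i ≠ j → LinearIndependent ℂ ![v₀ i, v₀ j])
    (f₀ : ℕ → Idx E.β (-q) → ℂ) (hf₀ : ∀ k, f₀ k ∈ E.Hsec (-q) (v₀ k)) (e₀ : Fin E.a → ℂ)
    (he₀ : e₀ ≠ 0) (hf₀e : ∀ k, E.cf (f₀ k) 0 = e₀) : E.Splits := by
  classical
  obtain ⟨c₁, P, hP, hP0, hPw⟩ := plucker (by omega : 2 ≤ n + 1) E.β E.γ E.B E.hom E.rank_two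
  have hli : ∀ v : Fin n → ℂ, v ≠ 0 →
      LinearIndependent ℂ ![(Fin.cons 1 0 : Fin (n + 1) → ℂ), Fin.cons 0 v] := by
    intro v hv
    rw [LinearIndependent.pair_iff]
    intro s t hst
    have h2 := congrFun hst 0
    have h3 : s = 0 := by simpa using h2
    refine ⟨h3, ?_⟩
    by_contra ht
    apply hv
    ext i
    have h4 := congrFun hst i.succ
    have h5 : t * v i = 0 := by simpa [h3] using h4
    rcases mul_eq_zero.mp h5 with h | h
    · exact absurd h ht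
    · exact h
  have hall : ∀ v : Fin n → ℂ, v ≠ 0 → ∃ a b : ℤ, b ≤ a ∧ a ≤ q ∧ a + b = c₁ ∧
      E.SplitsOn (Fin.cons 1 0) (Fin.cons 0 v) a b ∧
      ∀ j : ℤ, Module.finrank ℂ (E.Hsec j v) = (a + j + 1).toNat + (b + j + 1).toNat := by
    intro v hv
    obtain ⟨a, b, hs⟩ := Pool.Agent.H106R3.VB.splitsOn_exists E (hli v hv)
    have hsum := splitsOn_sum E c₁ P hP hP0 hPw v hv a b hs
    have hfr := finrank_Hsec E v hv a b hs
    have hle := hmax v hv a b hs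
    rcases le_total b a with h | h
    · exact ⟨a, b, h, hle.1, hsum, hs, hfr⟩
    · refine ⟨b, a, h, hle.2, by omega, ?_, fun j => by rw [hfr j]; ring⟩
      obtain ⟨g₁, g₂, h1, h2, h3⟩ := hs
      refine ⟨g₂, g₁, h2, h1, fun z hz => ⟨(h3 z hz).2.1, (h3 z hz).1, ?_⟩⟩
      have h4 := (h3 z hz).2.2
      rw [LinearIndependent.pair_iff] at h4 ⊢
      intro s t hst
      have := h4 t s (by rw [← hst]; abel)
      exact ⟨this.2, this.1⟩
  have hv00 : ∀ k, v₀ k ≠ 0 := fun k => (hv₀ k (k + 1) (by omega)).ne_zero 0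
  have hbot : ∀ v : Fin n → ℂ, v ≠ 0 → E.Hsec (-q - 1) v = ⊥ := by
    intro v hv
    obtain ⟨a, b, h1, h2, h3, -, h4⟩ := hall v hv
    have := h4 (-q - 1)
    rw [← Submodule.finrank_eq_zero (R := ℂ), this]
    omega
  -- the first line
  have hq : 2 * q = c₁ + (2 * q - c₁).toNat := by
    obtain ⟨a, b, h1, h2, h3, -, h4⟩ := hall (v₀ 0) (hv00 0)
    have h5 : 0 < Module.finrank ℂ (E.Hsec (-q) (v₀ 0)) := by
      rw [Module.finrank_pos_iff_exists_ne_zero]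
      refine ⟨⟨f₀ 0, hf₀ 0⟩, ?_⟩
      intro h6
      have h7 : f₀ 0 = 0 := congrArg Subtype.val h6
      apply he₀
      rw [← hf₀e 0, h7]
      funext i
      simp [cf]
    rw [h4] at h5
    omega
  obtain ⟨w, hw⟩ : ∃ w : ℕ, (w : ℤ) = 2 * q - c₁ := ⟨(2 * q - c₁).toNat, by omega⟩
  rcases Nat.eq_zero_or_pos w with hw0 | hw0
  · apply main_e0 hn
    intro v hv
    obtain ⟨a, b, h1, h2, h3, hs, h4⟩ := hall v hv
    refine ⟨a, b, ?_, hs⟩
    have : a - b = 0 := by omega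
    rw [this, abs_zero]
    omega
  · have hfr1 : ∀ v : Fin n → ℂ, v ≠ 0 → Module.finrank ℂ (E.Hsec (-(c₁ - q) - 1) v) = w := by
      intro v hv
      obtain ⟨a, b, h1, h2, h3, -, h4⟩ := hall v hv
      rw [h4]
      omega
    have hfr2 : ∀ v : Fin n → ℂ, v ≠ 0 → Module.finrank ℂ (E.Hsec (-(c₁ - q)) v) = w + 2 := by
      intro v hv
      obtain ⟨a, b, h1, h2, h3, -, h4⟩ := hall v hv
      rw [h4]
      omega
    obtain ⟨F, e₁, hF, hFm, he₁, hFe⟩ := family_inf hn E c₁ P hP hP0 hPw q (c₁ - q) w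
      (by omega) (by omega) hw0 hbot hfr1 v₀ hv₀ f₀ hf₀ e₀ he₀ hf₀e
    exact splits_of_family hn E c₁ P hP hP0 hPw q (c₁ - q) w (by omega) (by omega) hbot hfr2 F hF
      hFm e₁ he₁ hFe

end Y208PT
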