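import Pool.Agent.Y208.PT.Chain
import Pool.Agent.Y208.PT.Lines

/-!
# Lines of maximal type in linear subspaces of codimension two
-/

open MvPolynomial H960VB H960VB.Bundle2

namespace Y208PT

variable {n : ℕ}

theorem cf_smul (E : Bundle2 n) {j : ℤ} (c : ℂ) (g : Idx E.β j → ℂ) (b : ℕ) :
    E.cf (c • g) b = c • E.cf g b := by
  ext i
  unfold cf
  simp only [Pi.smul_apply, smul_eq_mul]
  split_ifs <;> simp

theorem li_e0 {v : Fin n → ℂ} (hv : v ≠ 0) :
    LinearIndependent ℂ ![(Fin.cons 1 0 : Fin (n + 1) → ℂ), Fin.cons 0 v] := by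
  rw [LinearIndependent.pair_iff]
  intro s t hst
  have h2 := congrFun hst 0
  have h3 : s = 0 := by simpa using h2
  refine ⟨h3, ?_⟩
  by_contra ht
  apply hv
  ext i
  have h4 := congrFun hst i.succ
  have h5 : t * v i = 0 := by simpa [h3] using h4
  rcases mul_eq_zero.mp h5 with h | h
  · exact absurd h ht
  · exact h

/-- The theorem on linear subspaces of codimension two at the point `[1:0:...:0]`. -/
theorem planes_e0 (hn : 2 ≤ n) (E : Bundle2 n) (q : ℤ)
    (hmax : ∀ v : Fin n → ℂ, v ≠ 0 → ∀ a b : ℤ,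
      E.SplitsOn (Fin.cons 1 0) (Fin.cons 0 v) a b → a ≤ q ∧ b ≤ q)
    (hpl : ∀ a b : Fin n → ℂ, ∃ v : Fin n → ℂ, v ≠ 0 ∧ ∑ i, a i * v i = 0 ∧
      ∑ i, b i * v i = 0 ∧ ∃ f ∈ E.Hsec (-q) v, f ≠ 0) : E.Splits := by
  classical
  obtain ⟨c₁, P, hP, hP0, hPw⟩ := plucker (by omega : 2 ≤ n + 1) E.β E.γ E.B E.hom E.rank_two
  have hall : ∀ v : Fin n → ℂ, v ≠ 0 → ∃ a b : ℤ, b ≤ a ∧ a ≤ q ∧ a + b = c₁ ∧
      E.SplitsOn (Fin.cons 1 0) (Fin.cons 0 v) a b ∧
      ∀ j : ℤ, Module.finrank ℂ (E.Hsec j v) = (a + j + 1).toNat + (b + j + 1).toNat := by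
    intro v hv
    obtain ⟨a, b, hs⟩ := Pool.Agent.H106R3.VB.splitsOn_exists E (li_e0 hv)
    have hsum := splitsOn_sum E c₁ P hP hP0 hPw v hv a b hs
    have hfr := finrank_Hsec E v hv a b hs
    have hle := hmax v hv a b hs
    rcases le_total b a with h | h
    · exact ⟨a, b, h, hle.1, hsum, hs, hfr⟩
    · exact ⟨b, a, h, hle.2, by omega, SplitsOn.swap hs, fun j => by rw [hfr j]; ring⟩
  have hbot : ∀ v : Fin n → ℂ, v ≠ 0 → E.Hsec (-q - 1) v = ⊥ := by
    intro v hv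
    obtain ⟨a, b, h1, h2, h3, -, h4⟩ := hall v hv
    have := h4 (-q - 1)
    rw [← Submodule.finrank_eq_zero (R := ℂ), this]
    omega
  have hne : ∀ v : Fin n → ℂ, v ≠ 0 → ∀ f ∈ E.Hsec (-q) v, f ≠ 0 → E.cf f 0 ≠ 0 := by
    intro v hv f hf hf0 h0
    apply hf0
    refine eq_zero_of_sh E f 1 (j' := -q - 1) (by push_cast; ring) (by
      intro b hb
      obtain rfl : b = 0 := by omega
      exact h0) ?_
    have := sh_mem E v f hf 1 (j' := -q - 1) (by push_cast; ring) (by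
      intro b hb
      obtain rfl : b = 0 := by omega
      exact h0)
    rw [hbot v hv] at this
    simpa using this
  have hq : c₁ ≤ 2 * q := by
    obtain ⟨v, hv, -⟩ := hpl 0 0
    obtain ⟨a, b, h1, h2, h3, -, h4⟩ := hall v hv
    omega
  obtain ⟨w, hw⟩ : ∃ w : ℕ, (w : ℤ) = 2 * q - c₁ := ⟨(2 * q - c₁).toNat, by omega⟩
  rcases Nat.eq_zero_or_pos w with hw0 | hw0
  · apply main_e0 hn
    intro v hv
    obtain ⟨a, b, h1, h2, h3, hs, h4⟩ := hall v hv
    refine ⟨a, b, ?_, hs⟩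
    have : a - b = 0 := by omega
    rw [this, abs_zero]
    omega
  have hmem : ∀ {j : ℤ} v (g : Idx E.β j → ℂ), (evm (E.fam j) v).mulVec g = 0 ↔ g ∈ E.Hsec j v := by
    intro j v g
    simp [Hsec]
  -- the cone of the lines of maximal type
  let S : Set (MvPolynomial (Fin n) ℂ) :=
    {p | ∃ f : Idx E.β (-q) → Idx E.γ (-q), p = ((E.fam (-q)).submatrix f id).det}
  obtain ⟨v₁, hv₁, 𝔭, 𝔮, h𝔭, h𝔮, hS𝔭, h𝔭𝔮, h𝔮v⟩ := chain (Ideal.span S) (by
    intro a b
    obtain ⟨v, hv, hav, hbv, f, hf, hf0⟩ := hpl a b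
    refine ⟨v, hv, hav, hbv, ?_⟩
    rw [Ideal.span_le]
    rintro _ ⟨F, rfl⟩
    rw [SetLike.mem_coe, mem_lineIdeal]
    intro t
    obtain ⟨d, hd⟩ := (HomZ.tdDet ((E.fam (-q)).submatrix F id)
      (fun c => (((F c).2 : ℕ) : ℤ)) (fun x : Idx E.β (-q) => ((x.2 : ℕ) : ℤ))
      (fun a c => E.fam_hom _ _ _)).tdIsHom
    rw [eval_smul_hom hd, td_eval_minor, td_minor_zero _ f hf0 ((hmem v f).2 hf) _, mul_zero])
  have hI : ∀ y : Fin n → ℂ, (∀ f ∈ 𝔭, eval y f = 0) → ∃ f ∈ E.Hsec (-q) y, f ≠ 0 := by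
    intro y hy
    obtain ⟨u, hu0, hu⟩ := td_maxmin (evm (E.fam (-q)) y) (fun f => by
      rw [← td_eval_minor]
      exact hy _ (hS𝔭 (Ideal.subset_span ⟨f, rfl⟩)))
    exact ⟨u, (hmem y u).1 hu, hu0⟩
  -- the direction of the first line
  obtain ⟨f₁, hf₁, hf₁0⟩ := hI v₁ (fun f hf => by
    have := mem_lineIdeal.1 (h𝔮v.le (h𝔭𝔮.le hf)) 1
    rwa [one_smul] at this)
  have he₀ := hne v₁ hv₁ f₁ hf₁ hf₁0
  obtain ⟨e', μ, lam, _, hμ1, _, hl1, _, hdual⟩ :=
    exists_dual E (E.cf f₁ 0) (cf_zero_mem E v₁ f₁ hf₁) he₀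
  have hfr1 : ∀ v : Fin n → ℂ, v ≠ 0 → Module.finrank ℂ (E.Hsec (-(c₁ - q) - 1) v) = w := by
    intro v hv
    obtain ⟨a, b, h1, h2, h3, -, h4⟩ := hall v hv
    rw [h4]
    omega
  have hind : ∀ v : Fin n → ℂ, ∀ g ∈ E.Hsec (-(c₁ - q) - 1) v, ∀ W : ℕ,
      (∀ b < W, μ ⬝ᵥ E.cf g b = 0) → (∀ b < W, lam ⬝ᵥ E.cf g b = 0) →
      ∀ b < W, E.cf g b = 0 := by
    intro v g hg W hμg hlg b
    induction b using Nat.strong_induction_on with
    | _ b ih =>
      intro hb
      exact hdual _ (cf_mem E v g hg b (fun b' hb' => ih b' hb' (lt_trans hb' hb)))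
        (hμg b hb) (hlg b hb)
  have hrow : ∀ (φ : Fin E.a → ℂ) (b : Fin w) (x : Idx E.β (-(c₁ - q) - 1)),
      E.row (-(c₁ - q) - 1) b φ x ≠ 0 → ((x.2 : ℕ) : ℤ) = ((b : ℕ) : ℤ) := by
    intro φ b x hx
    by_contra h
    apply hx
    unfold row
    rw [if_neg]
    exact_mod_cast h
  obtain ⟨δ, h, hδ, hh, hl, hz⟩ := stack_local
    (fun y : Idx E.γ (-(c₁ - q) - 1) => ((y.2 : ℕ) : ℤ))
    (fun x : Idx E.β (-(c₁ - q) - 1) => ((x.2 : ℕ) : ℤ)) (E.fam (-(c₁ - q) - 1))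
    (fun y x => E.fam_hom _ y x) hfr1
    (fun b => E.row (-(c₁ - q) - 1) b μ) (fun b => E.row (-(c₁ - q) - 1) b lam) (hrow μ)
    (by
      intro v hv g hg hμg hlg
      rw [hmem] at hg
      have h3 : ∀ b < w, E.cf g b = 0 := by
        apply hind v g hg w
        · intro b hb
          rw [← row_sum]
          exact hμg ⟨b, hb⟩
        · intro b hb
          rw [← row_sum]
          exact hlg ⟨b, hb⟩
      apply eq_zero_of_sh E g w (j' := -q - 1) (by omega) h3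
      have := sh_mem E v g hg w (j' := -q - 1) (by omega) h3
      rw [hbot v hv] at this
      simpa using this)
    (fun b => E.row (-(c₁ - q) - 1) b lam) (hrow lam) v₁ hv₁
  have hz₁ : eval v₁ h = 0 := by
    apply hz
    refine ⟨E.mt f₁ (w - 1) (-(c₁ - q) - 1), ?_, ?_, ?_⟩
    · intro h0
      have h1 : μ ⬝ᵥ E.cf (E.mt f₁ (w - 1) (-(c₁ - q) - 1)) (w - 1) = 1 := by
        rw [cf_mt E f₁ (w - 1) (by omega), if_pos le_rfl, Nat.sub_self, hμ1]
      rw [h0] at h1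
      have h2 : E.cf (0 : Idx E.β (-(c₁ - q) - 1) → ℂ) (w - 1) = 0 := by
        ext i
        simp [cf]
      rw [h2, dotProduct_zero] at h1
      exact zero_ne_one h1
    · rw [hmem]
      exact mt_mem E v₁ f₁ hf₁ (w - 1) (by omega)
    · intro b
      rw [row_sum, cf_mt E f₁ (w - 1) (by omega)]
      by_cases hb : (b : ℕ) + 1 = w
      · rw [if_pos (by omega), show (b : ℕ) - (w - 1) = 0 by omega, hl1]
      · rw [if_neg (by omega)]
        simp
  obtain ⟨y, hy, hyk⟩ := fibre_inf hv₁ h𝔭𝔮 h𝔮v hδ hh hz₁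
  have hy0 : ∀ k, y k ≠ 0 := fun k => (hy k (k + 1) (by omega)).ne_zero 0
  have hex : ∀ k, ∃ f ∈ E.Hsec (-q) (y k), E.cf f 0 = E.cf f₁ 0 := by
    intro k
    obtain ⟨h1, h2, h3⟩ := hyk k
    obtain ⟨f, hf, hf0⟩ := hI (y k) h1
    obtain ⟨g, hg0, hg, hgl⟩ := hl (y k) h2 h3
    rw [hmem] at hg
    have hu := hne (y k) (hy0 k) f hf hf0
    have hlu : lam ⬝ᵥ E.cf f 0 = 0 := by
      by_contra hcon
      apply hg0
      obtain ⟨H, hH, hw'⟩ := wedge E c₁ P hP hP0 hPw (y k) (hy0 k) _ _ _ hf _ hg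
      have hH0 : H = 0 := HomZ.eq_zero_of_neg hH (by omega)
      refine inj_lemma E (y k) (j' := -q - 1) f g hg ((lam ⬝ᵥ E.cf f 0)⁻¹ • lam) ?_ ?_ w
        (by omega) (hbot _ (hy0 k)) ?_
      · rw [smul_dotProduct, smul_eq_mul, inv_mul_cancel₀ hcon]
      · intro z i k
        rw [hw' z i k, hH0]
        simp
      · intro b hb
        have := hgl ⟨b, hb⟩
        rw [row_sum] at this
        rw [smul_dotProduct]
        simp only at this
        rw [this, smul_zero]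
    have hue : E.cf f 0 = (μ ⬝ᵥ E.cf f 0) • E.cf f₁ 0 := by
      rw [← sub_eq_zero]
      apply hdual
      · exact Submodule.sub_mem _ (cf_zero_mem E (y k) f hf)
          (Submodule.smul_mem _ _ (cf_zero_mem E v₁ f₁ hf₁))
      · rw [dotProduct_sub, dotProduct_smul, hμ1, smul_eq_mul, mul_one, sub_self]
      · rw [dotProduct_sub, dotProduct_smul, hl1, hlu, smul_zero, sub_zero]
    have hμu : μ ⬝ᵥ E.cf f 0 ≠ 0 := by
      intro h0
      rw [h0, zero_smul] at hue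
      exact hu hue
    refine ⟨(μ ⬝ᵥ E.cf f 0)⁻¹ • f, Submodule.smul_mem _ _ hf, ?_⟩
    rw [cf_smul]
    conv_lhs => rw [hue]
    rw [dotProduct_smul, hμ1, smul_eq_mul, mul_one, smul_smul, inv_mul_cancel₀ hμu, one_smul]
  choose f hf1 hf2 using hex
  exact pt_e0 hn E q hmax y hy f hf1 _ he₀ hf2

/-- **Linear subspaces of codimension two.** -/
theorem planes (E : Bundle2 n) (hE : ¬ E.Splits) (Λ : Submodule ℂ (Fin (n + 1) → ℂ))
    (hΛ : 3 ≤ Module.finrank ℂ Λ) (P : Fin (n + 1) → ℂ) (hPΛ : P ∈ Λ) (hP : P ≠ 0) (q : ℤ)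
    (hmax : ∀ Q ∈ Λ, LinearIndependent ℂ ![P, Q] → ∀ a b : ℤ, E.SplitsOn P Q a b → a ≤ q ∧ b ≤ q) :
    ∃ M ≤ Λ, P ∈ M ∧ Module.finrank ℂ Λ ≤ Module.finrank ℂ M + 2 ∧
      ∀ Q ∈ M, LinearIndependent ℂ ![P, Q] → ∀ a b : ℤ, E.SplitsOn P Q a b → a < q ∧ b < q := by
  by_contra hcon
  apply hE
  obtain ⟨m, hm, T, hT, hTΛ, hTP⟩ := exists_param Λ P hPΛ hP
  have hmn : m + 1 ≤ n + 1 := by
    have := Submodule.finrank_le Λ
    rw [hm] at this
    simpa using this
  have hTm : ∀ x, T x ∈ Λ := fun x => hTΛ ▸ LinearMap.mem_range_self T x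
  have hli : ∀ v : Fin m → ℂ, v ≠ 0 → LinearIndependent ℂ ![P, T (Fin.cons 0 v)] := by
    intro v hv
    have h2 := (li_e0 hv).map' T (LinearMap.ker_eq_bot.mpr hT)
    have h3 : (T ∘ ![(Fin.cons 1 0 : Fin (m + 1) → ℂ), Fin.cons 0 v]) =
        ![P, T (Fin.cons 0 v)] := by
      ext i
      fin_cases i
      · simp [hTP]
      · simp
    rw [h3] at h2
    exact h2
  refine splits_of_pull (n - m) m n (by omega) (by omega) E T hT ?_
  refine planes_e0 (by omega) (E.pull T hT) q ?_ ?_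
  · intro v hv a b hs
    have h1 := splitsOn_of_pull E T hT _ _ a b hs
    rw [hTP] at h1
    exact hmax _ (hTm _) (hli v hv) a b h1
  · intro a b
    by_contra hab
    push Not at hab
    apply hcon
    -- the subspace
    let φ : (Fin (m + 1) → ℂ) →ₗ[ℂ] ℂ × ℂ :=
      { toFun := fun x => (∑ i, a i * x i.succ, ∑ i, b i * x i.succ)
        map_add' := by
          intro x y
          simp only [Pi.add_apply, mul_add, Finset.sum_add_distrib, Prod.mk_add_mk]
        map_smul' := by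
          intro c x
          simp only [Pi.smul_apply, smul_eq_mul, RingHom.id_apply, Prod.smul_mk, Finset.mul_sum]
          congr 1
          · refine Finset.sum_congr rfl fun i _ => ?_
            ring
          · refine Finset.sum_congr rfl fun i _ => ?_
            ring }
    have hφ : ∀ x, φ x = (∑ i, a i * x i.succ, ∑ i, b i * x i.succ) := fun x => rfl
    refine ⟨(LinearMap.ker φ).map T, ?_, ?_, ?_, ?_⟩
    · rintro _ ⟨x, -, rfl⟩
      exact hTm x
    · refine ⟨Fin.cons 1 0, ?_, hTP⟩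
      rw [SetLike.mem_coe, LinearMap.mem_ker, hφ]
      simp
    · have h1 : Module.finrank ℂ ((LinearMap.ker φ).map T) = Module.finrank ℂ (LinearMap.ker φ) :=
        (Submodule.equivMapOfInjective T hT (LinearMap.ker φ)).finrank_eq.symm
      have h2 := LinearMap.finrank_range_add_finrank_ker φ
      have h3 := Submodule.finrank_le (LinearMap.range φ)
      rw [Module.finrank_prod, Module.finrank_self] at h3
      rw [Module.finrank_fin_fun] at h2
      rw [h1, hm]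
      omega
    · rintro _ ⟨x, hx, rfl⟩ hPQ c d hs
      rw [SetLike.mem_coe, LinearMap.mem_ker, hφ, Prod.mk_eq_zero] at hx
      have hle := hmax _ (hTm x) hPQ c d hs
      have hx1 : T x = x 0 • P + T (Fin.cons 0 (Fin.tail x)) := by
        rw [← hTP, ← param_decomp]
      have hv0 : Fin.tail x ≠ 0 := by
        intro h0
        have h3 : (Fin.cons 0 (Fin.tail x) : Fin (m + 1) → ℂ) = 0 := by
          rw [h0]
          ext i
          refine Fin.cases ?_ (fun i => ?_) i <;> simp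
        rw [h3, map_zero, add_zero] at hx1
        rw [LinearIndependent.pair_iff] at hPQ
        have h4 := hPQ (x 0) (-1) (by
          rw [hx1]
          simp)
        have h5 := h4.2
        norm_num at h5
      have hs' : (E.pull T hT).SplitsOn (Fin.cons 1 0) (Fin.cons 0 (Fin.tail x)) c d := by
        apply splitsOn_pull
        rw [hTP]
        exact SplitsOn.shear hs _ hx1
      have hfr := finrank_Hsec (E.pull T hT) (Fin.tail x) hv0 c d hs' (-q)
      have hz : (E.pull T hT).Hsec (-q) (Fin.tail x) = ⊥ := by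
        rw [eq_bot_iff]
        intro f hf
        by_contra hf0
        exact hf0 (by simpa using hab (Fin.tail x) hv0 hx.1 hx.2 f hf)
      rw [hz, finrank_bot] at hfr
      constructor <;> omega

end Y208PT
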