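import Pool.Agent.Y208.PT.Gap

/-!
# Multisecant lines of the zero scheme of a section
-/

open MvPolynomial H960VB H960VB.Bundle2

namespace Y208PT

variable {n : ℕ}

/-- on a line through `P` a section of low degree which does not vanish at `P` is a multiple of
the maximal subbundle, so its zero scheme has the expected length -/
theorem exists_factor (E : Bundle2 n) (c₁ : ℤ)
    (hc : ∀ A B : Fin (n + 1) → ℂ, LinearIndependent ℂ ![A, B] →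
      ∀ a b : ℤ, E.SplitsOn A B a b → a + b = c₁)
    (r : ℤ) (s : Fin E.a → MvPolynomial (Fin (n + 1)) ℂ) (hs : E.IsSection r s)
    {P Q : Fin (n + 1) → ℂ} (hPQ : LinearIndependent ℂ ![P, Q]) (hsP : evv s P ≠ 0)
    {a b : ℤ} (hab : E.SplitsOn P Q a b) (hb : b < -r) :
    ∃ (k : ℕ) (f : MvPolynomial (Fin 2) ℂ) (h : Fin E.a → MvPolynomial (Fin 2) ℂ),
      (k : ℤ) = a + r ∧ f.IsHomogeneous k ∧ f ≠ 0 ∧
      ∀ z : Fin 2 → ℂ, evv s (z 0 • P + z 1 • Q) = eval z f • evv h z := by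
  obtain ⟨g₁, g₂, hg₁, hg₂, hg⟩ := hab
  obtain ⟨hl, hlv⟩ := IsSection.lineSec hs hPQ
  obtain ⟨H₁, H₂, h1, h2, h3⟩ := hl.decomp hPQ (g₁ := g₁) (g₂ := g₂)
    ⟨hg₁, fun z hz => (hg z hz).1⟩ ⟨hg₂, fun z hz => (hg z hz).2.1⟩
    (fun z hz => (hg z hz).2.2)
  have h4 : H₂ = 0 := HomZ.eq_zero_of_neg h2 (by omega)
  have h5 : ∀ z : Fin 2 → ℂ, evv s (z 0 • P + z 1 • Q) = eval z H₁ • evv g₁ z := by
    intro z
    rw [← hlv z]
    ext i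
    simp [evv, h3, h4]
  have h6 : H₁ ≠ 0 := by
    intro h0
    apply hsP
    have h7 := h5 ![1, 0]
    have h8 : (![1, 0] : Fin 2 → ℂ) 0 • P + (![1, 0] : Fin 2 → ℂ) 1 • Q = P := by simp
    rw [h8, h0] at h7
    simpa using h7
  rcases h1 with h1 | ⟨k, hk, hk'⟩
  · exact absurd h1 h6
  · exact ⟨k, H₁, g₁, by omega, hk', h6, h5⟩

/-- **Secant lines.** -/
theorem secant (E : Bundle2 n) (hE : ¬ E.Splits) (c₁ : ℤ)
    (hc : ∀ A B : Fin (n + 1) → ℂ, LinearIndependent ℂ ![A, B] →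
      ∀ a b : ℤ, E.SplitsOn A B a b → a + b = c₁)
    (r : ℤ) (s : Fin E.a → MvPolynomial (Fin (n + 1)) ℂ) (hs : E.IsSection r s)
    (P : Fin (n + 1) → ℂ) (hP : P ≠ 0) (hsP : evv s P ≠ 0)
    (m : ℕ) (hm : 2 ≤ m) (hcm : c₁ + 2 * r + 2 ≤ m) (Λ : Submodule ℂ (Fin (n + 1) → ℂ))
    (hPΛ : P ∈ Λ) (hΛ : Module.finrank ℂ Λ = m + 1) :
    ∃ Q ∈ Λ, LinearIndependent ℂ ![P, Q] ∧
      ∃ (k : ℕ) (f : MvPolynomial (Fin 2) ℂ) (h : Fin E.a → MvPolynomial (Fin 2) ℂ),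
        m ≤ k + 1 ∧ f.IsHomogeneous k ∧ f ≠ 0 ∧
        ∀ z : Fin 2 → ℂ, evv s (z 0 • P + z 1 • Q) = eval z f • evv h z := by
  obtain ⟨Q, hQ, hPQ, a, b, hab, ha⟩ := gap E hE c₁ hc r s hs P hP hsP m hm hcm Λ hPΛ hΛ
  have h1 := hc P Q hPQ a b hab
  by_cases hb : b < -r
  · obtain ⟨k, f, h, hk, hf, hf0, hz⟩ := exists_factor E c₁ hc r s hs hPQ hsP hab hb
    exact ⟨Q, hQ, hPQ, k, f, h, by omega, hf, hf0, hz⟩
  · exfalso
    omega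

end Y208PT
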