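import Pool.Agent.Y208.PT.Main

/-!
# The pointwise theorem at a point of a linear subspace
-/

open MvPolynomial H960VB H960VB.Bundle2

namespace Y208PT

variable {m n : ℕ}

/-- `g` is a section of the twist `E(-q)` on the line through `[P]` and `[Q]`, which is
parametrised by `z ↦ z 0 • P + z 1 • Q`. -/
def LineSec (E : Bundle2 n) (P Q : Fin (n + 1) → ℂ) (q : ℤ)
    (g : Fin E.a → MvPolynomial (Fin 2) ℂ) : Prop :=
  (∀ i, HomZ (g i) (E.β i - q)) ∧
    ∀ z : Fin 2 → ℂ, z ≠ 0 → evv g z ∈ E.fib (z 0 • P + z 1 • Q)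

/-- the linear map `(z₀, z₁) ↦ (z₀ - c z₁, z₁)` -/
noncomputable def shear (c : ℂ) : (Fin (1 + 1) → ℂ) →ₗ[ℂ] (Fin (1 + 1) → ℂ) where
  toFun z := ![z 0 - c * z 1, z 1]
  map_add' x y := by
    ext i
    fin_cases i
    · simp
      ring
    · simp
  map_smul' r x := by
    ext i
    fin_cases i
    · simp
      ring
    · simp

theorem shear_apply (c : ℂ) (z : Fin 2 → ℂ) : shear c z = ![z 0 - c * z 1, z 1] := rfl

theorem evv_lsub_shear {a : ℕ} (c : ℂ) (g : Fin a → MvPolynomial (Fin 2) ℂ) (z : Fin 2 → ℂ) :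
    evv (fun i => lsub (shear c) (g i)) z = evv g ![z 0 - c * z 1, z 1] := by
  ext i
  have h := eval_lsub (shear c) z (g i)
  rw [shear_apply] at h
  exact h

/-- a change of the second point of the line -/
theorem LineSec.shear {E : Bundle2 n} {P Q Q' : Fin (n + 1) → ℂ} {q : ℤ}
    {g : Fin E.a → MvPolynomial (Fin 2) ℂ} (hg : LineSec E P Q q g) (c : ℂ)
    (hQ : Q = c • P + Q') :
    LineSec E P Q' q (fun i => lsub (shear c) (g i)) := by
  refine ⟨fun i => homZ_lsub _ (hg.1 i), fun z hz => ?_⟩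
  rw [evv_lsub_shear]
  have h := hg.2 ![z 0 - c * z 1, z 1] (by
    intro h0
    apply hz
    have h1 : z 1 = 0 := by
      have := congrFun h0 1
      simpa using this
    have h2 : z 0 = 0 := by
      have := congrFun h0 0
      simpa [h1] using this
    ext i
    fin_cases i
    · exact h2
    · exact h1)
  have h3 : (![z 0 - c * z 1, z 1] : Fin 2 → ℂ) 0 • P + (![z 0 - c * z 1, z 1] : Fin 2 → ℂ) 1 • Q =
      z 0 • P + z 1 • Q' := by
    rw [hQ]
    ext i
    simp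
    ring
  rwa [h3] at h

theorem evv_shear_zero {a : ℕ} (c : ℂ) (g : Fin a → MvPolynomial (Fin 2) ℂ) :
    evv (fun i => lsub (shear c) (g i)) ![1, 0] = evv g ![1, 0] := by
  rw [evv_lsub_shear]
  simp

/-- the coefficient array of a section on a line -/
theorem exists_Hsec (E : Bundle2 n) (v : Fin n → ℂ) (q : ℤ) (g : Fin E.a → MvPolynomial (Fin 2) ℂ)
    (hg : LineSec E (Fin.cons 1 0) (Fin.cons 0 v) q g) :
    ∃ f : Idx E.β (-q) → ℂ, f ∈ E.Hsec (-q) v ∧ (∀ z, E.lev f z = evv g z) ∧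
      E.cf f 0 = evv g ![1, 0] := by
  let f : Idx E.β (-q) → ℂ := fun x => L2.fromPoly (E.β x.1 + -q) (g x.1) x.2
  have h1 : L2.gp E f = g := by
    funext i
    exact L2.toPoly_fromPoly _ _ (L2.HomZ_cast (hg.1 i) (by ring))
  have h2 : ∀ z, E.lev f z = evv g z := by
    intro z
    rw [← L2.evv_gp, h1]
  refine ⟨f, ?_, h2, ?_⟩
  · rw [mem_Hsec]
    have h3 : (fun z : Fin 2 → ℂ => (evm E.B (lpt v z)).mulVec (E.lev f z)) = fun _ => 0 := by
      apply eq_of_eq_off
      · apply Continuous.matrix_mulVec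
        · exact (continuous_evm E).comp (continuous_lpt v)
        · exact continuous_lev E _
      · fun_prop
      · intro z hz
        have hz0 : z ≠ 0 := by
          intro h
          apply hz
          rw [h]
          rfl
        have h4 := hg.2 z hz0
        rw [L2.line_pt] at h4
        rw [h2]
        exact h4
    exact fun z => congrFun h3 z
  · ext i
    rw [← h2, lev_at_zero E f _ (by simp)]
    simp

theorem lineSec_pull (E : Bundle2 n) (T : (Fin (m + 1) → ℂ) →ₗ[ℂ] (Fin (n + 1) → ℂ))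
    (hT : Function.Injective T) (P Q : Fin (m + 1) → ℂ) (q : ℤ)
    (g : Fin E.a → MvPolynomial (Fin 2) ℂ) :
    LineSec (E.pull T hT) P Q q g ↔ LineSec E (T P) (T Q) q g := by
  have hx : ∀ z : Fin 2 → ℂ, T (z 0 • P + z 1 • Q) = z 0 • T P + z 1 • T Q := by simp
  constructor
  · rintro ⟨h1, h2⟩
    refine ⟨h1, fun z hz => ?_⟩
    have h := h2 z hz
    rw [fib_pull, hx] at h
    exact h
  · rintro ⟨h1, h2⟩
    refine ⟨h1, fun z hz => ?_⟩
    rw [fib_pull, hx]
    exact h2 z hz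

theorem splitsOn_of_pull (E : Bundle2 n) (T : (Fin (m + 1) → ℂ) →ₗ[ℂ] (Fin (n + 1) → ℂ))
    (hT : Function.Injective T) (P Q : Fin (m + 1) → ℂ) (p q : ℤ)
    (h : (E.pull T hT).SplitsOn P Q p q) : E.SplitsOn (T P) (T Q) p q := by
  obtain ⟨g₁, g₂, h₁, h₂, h₃⟩ := h
  refine ⟨g₁, g₂, h₁, h₂, fun z hz => ?_⟩
  obtain ⟨h4, h5, h6⟩ := h₃ z hz
  have hx : T (z 0 • P + z 1 • Q) = z 0 • T P + z 1 • T Q := by simp
  rw [fib_pull, hx] at h4 h5
  exact ⟨h4, h5, h6⟩

/-- a parametrisation of a linear subspace by coordinates in which `P` is the first point -/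
theorem exists_param (Λ : Submodule ℂ (Fin (n + 1) → ℂ)) (P : Fin (n + 1) → ℂ) (hPΛ : P ∈ Λ)
    (hP : P ≠ 0) : ∃ (m : ℕ) (_ : Module.finrank ℂ Λ = m + 1)
      (T : (Fin (m + 1) → ℂ) →ₗ[ℂ] (Fin (n + 1) → ℂ)),
      Function.Injective T ∧ LinearMap.range T = Λ ∧ T (Fin.cons 1 0) = P := by
  have hpos : 0 < Module.finrank ℂ Λ := by
    rw [Module.finrank_pos_iff_exists_ne_zero]
    exact ⟨⟨P, hPΛ⟩, fun h => hP (congrArg Subtype.val h)⟩
  obtain ⟨m, hm⟩ : ∃ m, Module.finrank ℂ Λ = m + 1 := ⟨Module.finrank ℂ Λ - 1, by omega⟩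
  let e : (Fin (m + 1) → ℂ) ≃ₗ[ℂ] Λ :=
    LinearEquiv.ofFinrankEq (Fin (m + 1) → ℂ) Λ (by rw [hm]; simp)
  have hP' : e.symm ⟨P, hPΛ⟩ ≠ 0 := by
    intro h0
    have h1 : (⟨P, hPΛ⟩ : Λ) = 0 := by
      rw [← e.apply_symm_apply ⟨P, hPΛ⟩, h0, map_zero]
    exact hP (congrArg Subtype.val h1)
  obtain ⟨T₀, hT₀⟩ := exists_move (e.symm ⟨P, hPΛ⟩) hP'
  refine ⟨m, hm, Λ.subtype ∘ₗ (T₀.trans e).toLinearMap, ?_, ?_, ?_⟩
  · intro x y hxy
    have h1 : ((T₀.trans e) x : Fin (n + 1) → ℂ) = (T₀.trans e) y := hxy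
    exact (T₀.trans e).injective (Subtype.ext h1)
  · rw [LinearMap.range_comp, LinearEquiv.range, Submodule.map_top, Submodule.range_subtype]
  · simp [hT₀]

theorem param_decomp (T : (Fin (m + 1) → ℂ) →ₗ[ℂ] (Fin (n + 1) → ℂ)) (x : Fin (m + 1) → ℂ) :
    T x = x 0 • T (Fin.cons 1 0) + T (Fin.cons 0 (Fin.tail x)) := by
  rw [← map_smul, ← map_add]
  congr 1
  ext i
  refine Fin.cases ?_ (fun i => ?_) i <;> simp [Fin.tail]

/-- **The pointwise theorem at a point of a linear subspace.** -/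
theorem pt_subspace (E : Bundle2 n) (Λ : Submodule ℂ (Fin (n + 1) → ℂ))
    (hΛ : 3 ≤ Module.finrank ℂ Λ) (P : Fin (n + 1) → ℂ) (hPΛ : P ∈ Λ) (hP : P ≠ 0) (q : ℤ)
    (hmax : ∀ Q ∈ Λ, LinearIndependent ℂ ![P, Q] → ∀ a b : ℤ, E.SplitsOn P Q a b → a ≤ q ∧ b ≤ q)
    (Q : ℕ → Fin (n + 1) → ℂ) (hQΛ : ∀ k, Q k ∈ Λ)
    (hQ : ∀ i j, i ≠ j → LinearIndependent ℂ ![P, Q i, Q j])
    (g : ℕ → Fin E.a → MvPolynomial (Fin 2) ℂ) (hg : ∀ k, LineSec E P (Q k) q (g k))
    (e : Fin E.a → ℂ) (he : e ≠ 0) (hge : ∀ k, evv (g k) ![1, 0] = e) : E.Splits := by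
  obtain ⟨m, hm, T, hT, hTΛ, hTP⟩ := exists_param Λ P hPΛ hP
  have hmn : m + 1 ≤ n + 1 := by
    have := Submodule.finrank_le Λ
    rw [hm] at this
    simpa using this
  have hTm : ∀ x, T x ∈ Λ := fun x => hTΛ ▸ LinearMap.mem_range_self T x
  refine splits_of_pull (n - m) m n (by omega) (by omega) E T hT ?_
  have hex : ∀ k, ∃ x, T x = Q k := by
    intro k
    have := hQΛ k
    rw [← hTΛ] at this
    exact this
  choose x hx using hex
  have hxd : ∀ k, Q k = x k 0 • P + T (Fin.cons 0 (Fin.tail (x k))) := by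
    intro k
    rw [← hx k, ← hTP, ← param_decomp]
  have hg' : ∀ k, LineSec (E.pull T hT) (Fin.cons 1 0) (Fin.cons 0 (Fin.tail (x k))) q
      (fun i => lsub (shear (x k 0)) (g k i)) := by
    intro k
    have h := (hg k).shear (x k 0) (hxd k)
    rw [← hTP] at h
    exact (lineSec_pull E T hT _ _ q _).2 h
  have hf : ∀ k, ∃ f : Idx (E.pull T hT).β (-q) → ℂ,
      f ∈ (E.pull T hT).Hsec (-q) (Fin.tail (x k)) ∧ (E.pull T hT).cf f 0 = e := by
    intro k
    obtain ⟨f, h1, -, h3⟩ := exists_Hsec (E.pull T hT) (Fin.tail (x k)) q _ (hg' k)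
    refine ⟨f, h1, ?_⟩
    rw [h3]
    exact (evv_shear_zero (x k 0) (g k)).trans (hge k)
  choose f hf1 hf2 using hf
  refine pt_e0 (by omega) (E.pull T hT) q ?_ (fun k => Fin.tail (x k)) ?_ f hf1 e he hf2
  · intro v hv a b hs
    have h1 := splitsOn_of_pull E T hT _ _ a b hs
    rw [hTP] at h1
    refine hmax _ (hTm _) ?_ a b h1
    rw [LinearIndependent.pair_iff]
    intro s t hst
    rw [← hTP, ← map_smul, ← map_smul, ← map_add] at hst
    have h2 := hT (hst.trans (map_zero T).symm)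
    have h3 : s = 0 := by
      have := congrFun h2 0
      simpa using this
    refine ⟨h3, ?_⟩
    by_contra ht
    apply hv
    ext i
    have h4 := congrFun h2 i.succ
    have h5 : t * v i = 0 := by simpa [h3] using h4
    rcases mul_eq_zero.mp h5 with h | h
    · exact absurd h ht
    · exact h
  · intro i j hij
    rw [LinearIndependent.pair_iff]
    intro s t hst
    have h1 := hQ i j hij
    rw [Fintype.linearIndependent_iff] at h1
    have h2 : T (Fin.cons 0 (s • Fin.tail (x i) + t • Fin.tail (x j))) = 0 := by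
      have : (Fin.cons 0 (s • Fin.tail (x i) + t • Fin.tail (x j)) : Fin (m + 1) → ℂ) = 0 := by
        rw [hst]
        ext i
        refine Fin.cases ?_ (fun i => ?_) i <;> simp
      rw [this, map_zero]
    have h3 : (Fin.cons 0 (s • Fin.tail (x i) + t • Fin.tail (x j)) : Fin (m + 1) → ℂ) =
        s • (Fin.cons 0 (Fin.tail (x i)) : Fin (m + 1) → ℂ) +
          t • (Fin.cons 0 (Fin.tail (x j)) : Fin (m + 1) → ℂ) := by
      ext i
      refine Fin.cases ?_ (fun i => ?_) i <;> simp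
    rw [h3, map_add, map_smul, map_smul] at h2
    have h4 := h1 ![-(s * x i 0 + t * x j 0), s, t] (by
      rw [Fin.sum_univ_three]
      simp only [Matrix.cons_val_zero, Matrix.cons_val_one, Matrix.cons_val_two,
        Matrix.head_cons, Matrix.tail_cons]
      rw [hxd i, hxd j]
      have h5 : s • T (Fin.cons 0 (Fin.tail (x i))) + t • T (Fin.cons 0 (Fin.tail (x j))) = 0 := h2
      calc -(s * x i 0 + t * x j 0) • P + s • (x i 0 • P + T (Fin.cons 0 (Fin.tail (x i)))) +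
            t • (x j 0 • P + T (Fin.cons 0 (Fin.tail (x j))))
          = s • T (Fin.cons 0 (Fin.tail (x i))) + t • T (Fin.cons 0 (Fin.tail (x j))) := by
            module
        _ = 0 := h5)
    exact ⟨by simpa using h4 1, by simpa using h4 2⟩

end Y208PT
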